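import Pool.Agent.Lib.MP_918dbb_lc.Diagram

/-!
# Absoluteness for end extensions
-/

universe u₀ u₁

namespace Pool.Agent.Lib.MP_918dbb_lc

open FirstOrder FirstOrder.Language

/-- `j` is an injective map onto an initial segment, preserving membership both ways. -/
structure EndExt {M₀ : Type u₀} {M₁ : Type u₁} [Lset.Structure M₀] [Lset.Structure M₁]
    (j : M₀ → M₁) : Prop where
  inj : Function.Injective j
  mem : ∀ x y : M₀, E (j x) (j y) ↔ E x y
  down : ∀ (a : M₀) (b : M₁), E b (j a) → ∃ a' : M₀, j a' = b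

section

variable {M₀ : Type u₀} {M₁ : Type u₁} [Lset.Structure M₀] [Lset.Structure M₁] {j : M₀ → M₁}

theorem realize_term_comp {β : Type} (j : M₀ → M₁) (t : Lset.Term β) (v : β → M₀) :
    t.realize (j ∘ v) = j (t.realize v) := by
  cases t with
  | var b => rfl
  | func f _ => exact Empty.elim f

theorem delta0_abs (hj : EndExt j) {α : Type} {n : ℕ} {φ : Lset.BoundedFormula α n}
    (hφ : IsDelta0 φ) (v : α → M₀) (xs : Fin n → M₀) :
    φ.Realize (j ∘ v) (j ∘ xs) ↔ φ.Realize v xs := by
  have hsn : ∀ (n : ℕ) (xs : Fin n → M₀) (a : M₀),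
      (Fin.snoc (j ∘ xs) (j a) : Fin (n + 1) → M₁) = j ∘ (Fin.snoc xs a : Fin (n + 1) → M₀) := by
    intro n xs a
    rw [Fin.comp_snoc]
  have hterm : ∀ {N : Type u₀} [Lset.Structure N] (n : ℕ) (t : Lset.Term (α ⊕ Fin n)) (v : α → N)
      (xs : Fin n → N) (a : N), (t.relabel (Sum.map id Fin.castSucc)).realize
        (Sum.elim v (Fin.snoc xs a : Fin (n + 1) → N)) = t.realize (Sum.elim v xs) := by
    intro N _ n t v xs a
    rw [Term.realize_relabel]
    congr 1
    funext i
    rcases i with i | i <;> simp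
  have hterm1 : ∀ {N : Type u₁} [Lset.Structure N] (n : ℕ) (t : Lset.Term (α ⊕ Fin n)) (v : α → N)
      (xs : Fin n → N) (a : N), (t.relabel (Sum.map id Fin.castSucc)).realize
        (Sum.elim v (Fin.snoc xs a : Fin (n + 1) → N)) = t.realize (Sum.elim v xs) := by
    intro N _ n t v xs a
    rw [Term.realize_relabel]
    congr 1
    funext i
    rcases i with i | i <;> simp
  induction hφ with
  | falsum => rfl
  | equal t₁ t₂ =>
    rw [BoundedFormula.realize_bdEqual, BoundedFormula.realize_bdEqual, ← Sum.comp_elim,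
      realize_term_comp, realize_term_comp, hj.inj.eq_iff]
  | mem t₁ t₂ =>
    rw [realize_memF, realize_memF, ← Sum.comp_elim, realize_term_comp, realize_term_comp, hj.mem]
  | imp _ _ ih₁ ih₂ =>
    rw [BoundedFormula.realize_imp, BoundedFormula.realize_imp]
    exact imp_congr (ih₁ _) (ih₂ _)
  | @ball n t φ h ih =>
    rw [BoundedFormula.realize_all, BoundedFormula.realize_all]
    simp only [BoundedFormula.realize_imp, realize_memF, hterm, hterm1]
    simp only [Function.comp_apply, Term.realize_var, Sum.elim_inr, Fin.snoc_last]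
    constructor
    · intro H a ha
      have := H (j a) (by
        rw [← Sum.comp_elim, realize_term_comp, hj.mem]; exact ha)
      rw [hsn] at this
      exact (ih _).1 this
    · intro H b hb
      rw [← Sum.comp_elim, realize_term_comp] at hb
      obtain ⟨a, rfl⟩ := hj.down _ _ hb
      rw [hj.mem] at hb
      rw [hsn]
      exact (ih _).2 (H a hb)
  | @bex n t φ h ih =>
    rw [BoundedFormula.realize_ex, BoundedFormula.realize_ex]
    simp only [BoundedFormula.realize_inf, realize_memF, hterm, hterm1]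
    simp only [Function.comp_apply, Term.realize_var, Sum.elim_inr, Fin.snoc_last]
    constructor
    · rintro ⟨b, hb, hb'⟩
      rw [← Sum.comp_elim, realize_term_comp] at hb
      obtain ⟨a, rfl⟩ := hj.down _ _ hb
      rw [hj.mem] at hb
      rw [hsn] at hb'
      exact ⟨a, hb, (ih _).1 hb'⟩
    · rintro ⟨a, ha, ha'⟩
      refine ⟨j a, ?_, ?_⟩
      · rw [← Sum.comp_elim, realize_term_comp, hj.mem]; exact ha
      · rw [hsn]; exact (ih _).2 ha'

theorem delta0ZFC_abs [Nonempty M₀] [Nonempty M₁] (hj : EndExt j) (h₀ : M₀ ⊨ ZFC)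
    (h₁ : M₁ ⊨ ZFC) {k : ℕ} {φ : Lset.Formula (Fin k)} (hφ : IsDelta0ZFC φ) (v : Fin k → M₀) :
    φ.Realize (j ∘ v) ↔ φ.Realize v := by
  obtain ⟨δ, hδ, heq⟩ := hφ
  have e₀ := heq.realize_formula M₀ (v := v)
  have e₁ := heq.realize_formula M₁ (v := j ∘ v)
  rw [Formula.realize_iff] at e₀ e₁
  rw [e₀, e₁, Formula.Realize, Formula.Realize, ← delta0_abs hj hδ v default]
  rw [Subsingleton.elim (j ∘ (default : Fin 0 → M₀)) default]

end

end Pool.Agent.Lib.MP_918dbb_lc
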