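import Pool.Agent.Lib.MP_918dbb_lc.Abs

/-!
# The main argument, for an abstract pair of models
-/

universe u₀ u₁ w

namespace Pool.Agent.Lib.MP_918dbb_lc

open FirstOrder FirstOrder.Language

/-! ### The extra predicates -/

/-- `U(y) ∧ φ(x_1, …, x_n)` as a formula in `(y, x_1, …, x_n)`. -/
def theta (U : Lset.Formula (Fin 1)) {n : ℕ} (φ : Lset.Formula (Fin n)) :
    Lset.Formula (Fin (n + 1)) :=
  (U.relabel fun _ => 0) ⊓ (φ.relabel Fin.succ)

theorem realize_theta {M : Type w} [Lset.Structure M] (U : Lset.Formula (Fin 1)) {n : ℕ}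
    (φ : Lset.Formula (Fin n)) (x : Fin (n + 1) → M) :
    (theta U φ).Realize x ↔ U.Realize (fun _ => x 0) ∧ φ.Realize (fun i => x i.succ) := by
  unfold theta
  rw [Formula.realize_inf, Formula.realize_relabel, Formula.realize_relabel]
  rfl

/-- The set `A`: the symbols of `∈_{Δ₀}` and a relation symbol for each `U(y) ∧ φ(x)`. -/
def sigA (U : Lset.Formula (Fin 1)) : Set (FormBit Lset) :=
  deltaZeroSig ∪ {p | ∃ (n : ℕ) (φ : Lset.Formula (Fin n)), p = ⟨n, theta U φ, false⟩}

theorem theta_mem (U : Lset.Formula (Fin 1)) {n : ℕ} (φ : Lset.Formula (Fin n)) :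
    (⟨n, theta U φ, false⟩ : FormBit Lset) ∈ sigA U :=
  Or.inr ⟨n, φ, rfl⟩

theorem of_mem_true {U : Lset.Formula (Fin 1)} {n : ℕ} {φ : Lset.Formula (Fin (n + 1))}
    (h : (⟨n, φ, true⟩ : FormBit Lset) ∈ sigA U) :
    IsDelta0ZFC φ ∧ ZFC ⊨ᵇ existsUnique φ := by
  rcases h with h | ⟨m, ψ, h⟩
  · exact ⟨h.1, h.2 rfl⟩
  · exfalso
    have h1 : n = m := congrArg Sigma.fst h
    subst h1
    have h2 := eq_of_heq (Sigma.mk.inj h).2
    have h3 := congrArg Prod.snd h2
    exact Bool.noConfusion h3

/-! ### The two models -/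

/-- The situation: `M₁` is an end extension of `M₀` via `j`, both are models of `ZFC`, and `U`
is empty in `M₀`, nonempty in `M₁`, and holds in `M₁` of no element of `M₀`. -/
structure Pair {M₀ : Type u₀} {M₁ : Type u₁} [Lset.Structure M₀] [Lset.Structure M₁]
    (j : M₀ → M₁) (U : Lset.Formula (Fin 1)) : Prop where
  ext : EndExt j
  zfc₀ : M₀ ⊨ ZFC
  zfc₁ : M₁ ⊨ ZFC
  U₀ : ∀ a : M₀, ¬ U.Realize fun _ => a
  U₀₁ : ∀ a : M₀, ¬ U.Realize fun _ => j a
  U₁ : ∃ b : M₁, U.Realize fun _ => b

/-- The extra condition on the constant: none, or being empty. -/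
def okc (b : Bool) {M : Type w} [Lset.Structure M] (c : M) : Prop :=
  b = true → ∀ y : M, ¬ E y c

/-- `T_{{∈},A}` or `T_{∈,A}`. -/
def bMorley (b : Bool) (A : Set (FormBit Lset)) : (morleyLang A).Theory :=
  if b then setMorleyTheory A else morleyTheory A

section Ext

variable {M : Type w} [Lset.Structure M]

theorem empty_unique (h : M ⊨ ZFC) {x y : M} (hx : ∀ z : M, ¬ E z x) (hy : ∀ z : M, ¬ E z y) :
    x = y := by
  have := h.realize_of_mem axExt (Or.inl (Or.inl (by simp)))
  exact realize_axExt.1 this x y fun z => ⟨fun h => absurd h (hx z), fun h => absurd h (hy z)⟩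

theorem exists_empty (h : M ⊨ ZFC) : ∃ x : M, ∀ z : M, ¬ E z x := by
  have := h.realize_of_mem axInf (Or.inl (Or.inl (by simp)))
  obtain ⟨x, ⟨e, -, he⟩, -⟩ := realize_axInf.1 this
  exact ⟨e, he⟩

theorem exists_okc (b : Bool) (h : M ⊨ ZFC) : ∃ x : M, okc b x := by
  obtain ⟨x, hx⟩ := exists_empty h
  exact ⟨x, fun _ => hx⟩

end Ext

section Chi

/-- The condition on the constant, as a formula. -/
def chi (b : Bool) : Lset.Formula (Fin 1) :=
  if b then ∀' ∼(memF (&0) (Term.var (Sum.inl 0))) else ⊤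

theorem realize_chi (b : Bool) {M : Type w} [Lset.Structure M] (v : Fin 1 → M) :
    (chi b).Realize v ↔ okc b (v 0) := by
  cases b
  · simp [chi, okc]
  · simp [chi, okc, Formula.Realize, realize_memF, Fin.snoc]

/-- The `{∈}`-sentence saying that `ψ` holds for all permitted values of the constant. -/
noncomputable def closeC {A : Set (FormBit Lset)} (b : Bool) (ψ : (morleyLang A).Sentence) :
    Lset.Sentence :=
  univClosure (k := 1) ((chi b).imp
    (Formula.relabel (Sum.elim Empty.elim id : Empty ⊕ Fin 1 → Fin 1) (trBF ψ)))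

theorem realize_closeC {A : Set (FormBit Lset)} (b : Bool) (ψ : (morleyLang A).Sentence)
    {M : Type w} [Lset.Structure M] :
    M ⊨ closeC b ψ ↔ ∀ c : M, okc b c →
      (Formula.Realize (trBF ψ) (Sum.elim (default : Empty → M) fun _ => c)) := by
  unfold closeC
  rw [realize_univClosure]
  have key : ∀ x : Fin 1 → M, (x ∘ (Sum.elim Empty.elim id : Empty ⊕ Fin 1 → Fin 1)) =
      Sum.elim (default : Empty → M) fun _ => x 0 := by
    intro x
    funext i
    rcases i with i | i
    · exact i.elim
    · simp [Subsingleton.elim i 0]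
  simp only [Formula.realize_imp, realize_chi, Formula.realize_relabel, key]
  constructor
  · intro h c hc
    exact h (fun _ => c) hc
  · intro h x hx
    exact h (x 0) hx

theorem realize_closeC_exp {A : Set (FormBit Lset)} (b : Bool) (ψ : (morleyLang A).Sentence)
    {M : Type w} [Lset.Structure M] :
    M ⊨ closeC b ψ ↔ ∀ c : M, okc b c → @Sentence.Realize _ M (expStruct A M c) ψ := by
  rw [realize_closeC]
  refine forall_congr' fun c => imp_congr_right fun _ => ?_
  let _ := expStruct A M c
  have hE := expStruct_expands A M c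
  have := realize_trBF hE ψ (default : Empty → M) (default : Fin 0 → M)
  exact this

end Chi

section Full

variable {A : Set (FormBit Lset)}

/-- Models of `S + T_A`. -/
theorem model_full_iff (b : Bool) (h0 : HasFn A) (S : Lset.Theory) (hS : ZFC ⊆ S) {M : Type w}
    [Lset.Structure M] [(morleyLang A).Structure M] [(morleyIncl A).IsExpansionOn M] :
    M ⊨ (morleyIncl A).onTheory S ∪ bMorley b A ↔
      M ⊨ S ∧ ∃ c : M, Expands A M c ∧ okc b c := by
  rw [Theory.model_union_iff, LHom.onTheory_model]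
  refine and_congr_right fun hM => ?_
  have hZ : M ⊨ ZFC := hM.mono hS
  cases b
  · constructor
    · intro h
      exact ⟨_, expands_of_model h0 h, fun h => absurd h (by decide)⟩
    · rintro ⟨c, hc, -⟩
      exact model_of_expands hc
  · constructor
    · intro h
      have h1 : M ⊨ morleyTheory A := h.mono Set.subset_union_left
      have h2 : M ⊨ axC h0 := h.realize_of_mem _ (Or.inr ⟨h0, rfl⟩)
      rw [realize_axC] at h2
      exact ⟨_, expands_of_model h0 h1, fun _ => (h2 _).2 rfl⟩
    · rintro ⟨c, hc, hok⟩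
      refine Theory.Model.union (model_of_expands hc) ⟨?_⟩
      rintro σ ⟨h, rfl⟩
      rw [realize_axC, hc.const h]
      intro x
      constructor
      · intro hx
        exact empty_unique hZ hx (hok rfl)
      · rintro rfl
        exact hok rfl

theorem models_of_closeC (b : Bool) (h0 : HasFn A) (S : Lset.Theory) (hS : ZFC ⊆ S)
    {ψ : (morleyLang A).Sentence} (hψ : closeC b ψ ∈ S) :
    ((morleyIncl A).onTheory S ∪ bMorley b A) ⊨ᵇ ψ := by
  rw [Theory.models_sentence_iff]
  intro M
  let _ : Lset.Structure M := (morleyIncl A).reduct M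
  obtain ⟨hMS, c, hc, hok⟩ := (model_full_iff b h0 S hS (M := M)).1 M.is_model
  have h1 : M ⊨ closeC b ψ := hMS.realize_of_mem _ hψ
  rw [realize_closeC] at h1
  exact (realize_trBF hc ψ (default : Empty → M) (default : Fin 0 → M)).1 (h1 c hok)

theorem closeC_of_models (b : Bool) (h0 : HasFn A) (S : Lset.Theory) (hS : ZFC ⊆ S)
    {ψ : (morleyLang A).Sentence} (hψ : ((morleyIncl A).onTheory S ∪ bMorley b A) ⊨ᵇ ψ)
    {M : Type w} [Nonempty M] [Lset.Structure M] (hM : M ⊨ S) : M ⊨ closeC b ψ := by
  rw [realize_closeC_exp]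
  intro c hc
  let _ := expStruct A M c
  have := expStruct_expansion A M c
  have hfull : M ⊨ (morleyIncl A).onTheory S ∪ bMorley b A :=
    (model_full_iff b h0 S hS).2 ⟨hM, c, expStruct_expands A M c, hc⟩
  exact hψ.realize_sentence M

end Full

/-! ### The embedding -/

section Embed

variable {M₀ : Type u₀} {M₁ : Type u₁} [Lset.Structure M₀] [Lset.Structure M₁]
  {j : M₀ → M₁} {U : Lset.Formula (Fin 1)}

theorem okc_map (hP : Pair j U) {b : Bool} {c : M₀} (hc : okc b c) : okc b (j c) := by
  intro hb y hy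
  obtain ⟨a, rfl⟩ := hP.ext.down _ _ hy
  exact hc hb a ((hP.ext.mem _ _).1 hy)

/-- `M₀` with its canonical structure embeds into `M₁` with its canonical structure. -/
theorem exists_emb [Nonempty M₀] [Nonempty M₁] (hP : Pair j U) (c : M₀) :
    ∃ f : @Embedding (morleyLang (sigA U)) M₀ M₁ (expStruct _ M₀ c) (expStruct _ M₁ (j c)),
      ∀ x, f.toFun x = j x := by
  let _ := expStruct (sigA U) M₀ c
  let _ := expStruct (sigA U) M₁ (j c)
  have hE₀ : Expands (sigA U) M₀ c := expStruct_expands (sigA U) M₀ c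
  have hE₁ : Expands (sigA U) M₁ (j c) := expStruct_expands (sigA U) M₁ (j c)
  refine ⟨{ toFun := j, inj' := hP.ext.inj, map_fun' := ?_, map_rel' := ?_ }, fun _ => rfl⟩
  · intro n f x
    cases f with
    | base f => exact Empty.elim f
    | const h =>
      rw [hE₀.const h, hE₁.const h]
    | fn φ h =>
      obtain ⟨hd, hu⟩ := of_mem_true h
      have := hP.zfc₀
      have := hP.zfc₁
      have u₀ := (realize_existsUnique φ x).1 (hu.realize_formula M₀ (v := x))
      have u₁ := (realize_existsUnique φ (j ∘ x)).1 (hu.realize_formula M₁ (v := j ∘ x))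
      have r₀ := hE₀.fn_pos φ h x u₀
      have r₁ := hE₁.fn_pos φ h (j ∘ x) u₁
      refine u₁.unique ?_ r₁
      rw [← delta0ZFC_abs hP.ext hP.zfc₀ hP.zfc₁ hd] at r₀
      convert r₀ using 1
      funext i
      refine Fin.cases ?_ (fun i => ?_) i
      · simp
      · simp
  · intro n R x
    cases R with
    | base R =>
      cases R
      have h1 := hE₀.rel_base x
      have h2 := hE₁.rel_base (j ∘ x)
      refine h2.trans (Iff.trans ?_ h1.symm)
      have h3 := hP.ext.mem (x 0) (x 1)
      unfold E at h3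
      convert h3 using 2
      · funext i
        fin_cases i <;> rfl
      · funext i
        fin_cases i <;> rfl
    | rel φ h =>
      refine (hE₁.rel φ h _).trans (Iff.trans ?_ (hE₀.rel φ h _).symm)
      rcases h with h | ⟨m, ψ, h⟩
      · exact delta0ZFC_abs hP.ext hP.zfc₀ hP.zfc₁ h.1 x
      · obtain ⟨h1, h2⟩ := Sigma.mk.inj h
        subst h1
        have h3 := congrArg Prod.fst (eq_of_heq h2)
        subst h3
        rw [realize_theta, realize_theta]
        constructor
        · rintro ⟨h, -⟩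
          exact absurd h (hP.U₀₁ _)
        · rintro ⟨h, -⟩
          exact absurd h (hP.U₀ _)

/-- Universal sentences pass from `M₁` to `M₀`. -/
theorem closeC_down [Nonempty M₀] [Nonempty M₁] (hP : Pair j U) (b : Bool)
    {ψ : (morleyLang (sigA U)).Sentence} (hψ : ψ.IsUniversal) (h : M₁ ⊨ closeC b ψ) :
    M₀ ⊨ closeC b ψ := by
  rw [realize_closeC_exp] at h ⊢
  intro c hc
  have h1 := h (j c) (okc_map hP hc)
  obtain ⟨f, -⟩ := exists_emb hP c
  let _ := expStruct (sigA U) M₀ c
  let _ := expStruct (sigA U) M₁ (j c)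
  refine hψ.realize_embedding f ?_
  rw [Subsingleton.elim (f ∘ default) default, Subsingleton.elim (f ∘ default) default]
  exact h1

end Embed

end Pool.Agent.Lib.MP_918dbb_lc
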