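import Mathlib.ModelTheory.Satisfiability
import Mathlib.ModelTheory.Complexity
import Mathlib.ModelTheory.ElementaryMaps

/-!
# Model companions, absolute model companions, Morleyizations, and ZFC

Definitions used in the statement for problem MP_918dbb_lc.
-/

universe w

namespace Pool.Agent.Lib.MP_918dbb_lc

open FirstOrder FirstOrder.Language

/-! ## Companions -/

section Companions

variable {L : Language.{0, 0}}

/-- `T` is model complete: every embedding between (nonempty) models of `T` is elementary. -/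
def IsModelComplete (T : L.Theory) : Prop :=
  ∀ (M N : Type w) [L.Structure M] [L.Structure N] [Nonempty M] [Nonempty N] [M ⊨ T] [N ⊨ T]
    (f : M ↪[L] N), ∃ g : M ↪ₑ[L] N, ∀ x, g x = f x

/-- The universal consequences of a theory. -/
def univPart (T : L.Theory) : Set L.Sentence :=
  {φ | φ.IsUniversal ∧ T ⊨ᵇ φ}

/-- Boolean combinations of universal sentences (falsum and implication generate all Boolean
connectives of Mathlib's first-order sentences). -/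
inductive IsBoolUniv : L.Sentence → Prop
  | of_universal {φ : L.Sentence} (h : φ.IsUniversal) : IsBoolUniv φ
  | falsum : IsBoolUniv (⊥ : L.Sentence)
  | imp {φ ψ : L.Sentence} (h₁ : IsBoolUniv φ) (h₂ : IsBoolUniv ψ) : IsBoolUniv (φ.imp ψ)

/-- The consequences of a theory that are Boolean combinations of universal sentences. -/
def boolUnivPart (T : L.Theory) : Set L.Sentence :=
  {φ | IsBoolUniv φ ∧ T ⊨ᵇ φ}

/-- `T` is the model companion of `S`. -/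
def IsModelCompanion (T S : L.Theory) : Prop :=
  univPart T = univPart S ∧ IsModelComplete.{w} T

/-- `T` is the absolute model companion (AMC) of `S`. -/
def IsAMC (T S : L.Theory) : Prop :=
  boolUnivPart T = boolUnivPart S ∧ IsModelComplete.{w} T

end Companions

/-! ## Morleyizations -/

section Morley

variable {τ : Language.{0, 0}}

/-- The universal closure of a formula in the variables `x_0, …, x_{k-1}`. -/
def univClosure {k : ℕ} (φ : τ.Formula (Fin k)) : τ.Sentence :=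
  (BoundedFormula.relabel (Sum.inr : Fin k → Empty ⊕ Fin k) φ : τ.BoundedFormula Empty k).alls

/-- For `φ(y, x_1, …, x_n)` the formula `∃! y φ(y, x_1, …, x_n)` in the variables
`x_1, …, x_n`; the variable `y` is the one with index `0`. -/
noncomputable def existsUnique {n : ℕ} (φ : τ.Formula (Fin (n + 1))) : τ.Formula (Fin n) :=
  (φ.relabel (Fin.cases (Sum.inr 0) Sum.inl : Fin (n + 1) → Fin n ⊕ Fin 1)).iExsUnique (Fin 1)

variable (τ) in
/-- The set `Form_τ × {0,1}`: pairs of a formula `φ(x_0, …, x_n)` and a bit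
(`false` is `0`, `true` is `1`). -/
abbrev FormBit : Type :=
  Σ n : ℕ, τ.Formula (Fin (n + 1)) × Bool

/-- The relation symbols of `τ_A`. -/
inductive MRel (A : Set (FormBit τ)) : ℕ → Type
  | base {k : ℕ} (R : τ.Relations k) : MRel A k
  | rel {n : ℕ} (φ : τ.Formula (Fin (n + 1))) (h : (⟨n, φ, false⟩ : FormBit τ) ∈ A) :
      MRel A (n + 1)

/-- The function symbols of `τ_A`; constants are the function symbols of arity `0`. -/
inductive MFun (A : Set (FormBit τ)) : ℕ → Type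
  | base {k : ℕ} (f : τ.Functions k) : MFun A k
  | fn {n : ℕ} (φ : τ.Formula (Fin (n + 1))) (h : (⟨n, φ, true⟩ : FormBit τ) ∈ A) : MFun A n
  | const (h : ∃ (n : ℕ) (φ : τ.Formula (Fin (n + 1))), (⟨n, φ, true⟩ : FormBit τ) ∈ A) :
      MFun A 0

/-- The signature `τ_A`. -/
abbrev morleyLang (A : Set (FormBit τ)) : Language.{0, 0} :=
  ⟨MFun A, MRel A⟩

/-- The inclusion of `τ` into `τ_A`. -/
def morleyIncl (A : Set (FormBit τ)) : τ →ᴸ morleyLang A :=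
  ⟨fun _ f => MFun.base f, fun _ R => MRel.base R⟩

/-- The constant symbol `c_τ`, as a closed term. -/
def cTerm {A : Set (FormBit τ)}
    (h : ∃ (n : ℕ) (φ : τ.Formula (Fin (n + 1))), (⟨n, φ, true⟩ : FormBit τ) ∈ A) {α : Type} :
    (morleyLang A).Term α :=
  Term.func (l := 0) (MFun.const h) Fin.elim0

/-- `Ax⁰_φ`: for all `x`, `φ(x)` iff `R_φ(x)`. -/
def ax0 {A : Set (FormBit τ)} {n : ℕ} (φ : τ.Formula (Fin (n + 1)))
    (h : (⟨n, φ, false⟩ : FormBit τ) ∈ A) : (morleyLang A).Sentence :=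
  univClosure (((morleyIncl A).onFormula φ).iff
    (Relations.formula (L := morleyLang A) (MRel.rel φ h) Term.var))

/-- The term `f_φ(x_1, …, x_n)`. -/
def fnTerm {A : Set (FormBit τ)} {n : ℕ} (φ : τ.Formula (Fin (n + 1)))
    (h : (⟨n, φ, true⟩ : FormBit τ) ∈ A) : (morleyLang A).Term (Fin n) :=
  Term.func (L := morleyLang A) (MFun.fn φ h) Term.var

/-- `Ax¹_φ`: for all `x_1, …, x_n`, if `∃! y φ(y, x)` then `φ(f_φ(x), x)`, and otherwise
`f_φ(x) = c_τ`. -/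
noncomputable def ax1 {A : Set (FormBit τ)} {n : ℕ} (φ : τ.Formula (Fin (n + 1)))
    (h : (⟨n, φ, true⟩ : FormBit τ) ∈ A) : (morleyLang A).Sentence :=
  univClosure
    ((((morleyIncl A).onFormula (existsUnique φ)).imp
        (BoundedFormula.subst ((morleyIncl A).onFormula φ)
          (Fin.cases (fnTerm φ h) Term.var : Fin (n + 1) → (morleyLang A).Term (Fin n)))) ⊓
      (((morleyIncl A).onFormula (existsUnique φ)).not.imp
        (Term.equal (fnTerm φ h) (cTerm ⟨n, φ, h⟩))))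

/-- The theory `T_{τ,A}`: all `Ax⁰_φ` for `(φ,0) ∈ A` and all `Ax¹_φ` for `(φ,1) ∈ A`. -/
def morleyTheory (A : Set (FormBit τ)) : (morleyLang A).Theory :=
  {σ | ∃ (n : ℕ) (φ : τ.Formula (Fin (n + 1))) (h : (⟨n, φ, false⟩ : FormBit τ) ∈ A),
      σ = ax0 φ h} ∪
  {σ | ∃ (n : ℕ) (φ : τ.Formula (Fin (n + 1))) (h : (⟨n, φ, true⟩ : FormBit τ) ∈ A),
      σ = ax1 φ h}

end Morley

/-! ## Set theory -/

section SetTheory

/-- The only symbol of the signature `{∈}`. -/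
inductive SetRel : ℕ → Type
  | mem : SetRel 2

/-- The signature `{∈}`. -/
abbrev Lset : Language.{0, 0} :=
  ⟨fun _ => Empty, SetRel⟩

/-- The atomic formula `t₁ ∈ t₂`. -/
def memF {α : Type} {n : ℕ} (t₁ t₂ : Lset.Term (α ⊕ Fin n)) : Lset.BoundedFormula α n :=
  Relations.boundedFormula₂ (L := Lset) SetRel.mem t₁ t₂

/-- The atomic formula `x_i ∈ x_j` for bound variables. -/
def memB {α : Type} {n : ℕ} (i j : Fin n) : Lset.BoundedFormula α n :=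
  memF (&i) (&j)

/-- The atomic formula `x_i = x_j` for bound variables. -/
def eqB {α : Type} {n : ℕ} (i j : Fin n) : Lset.BoundedFormula α n :=
  (&i) =' (&j)

/-- For `φ(u, v, p_1, …, p_n)` the formula `φ(x_i, x_j, p)`, where `x_i`, `x_j` are bound
variables in scope. -/
def inst₂ {n m : ℕ} (i j : Fin m) (φ : Lset.Formula (Fin (n + 2))) :
    Lset.BoundedFormula (Fin n) m :=
  BoundedFormula.relabel
    (Fin.cases (Sum.inr i) (Fin.cases (Sum.inr j) Sum.inl) : Fin (n + 2) → Fin n ⊕ Fin m) φ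

/-- For `φ(u, p_1, …, p_n)` the formula `φ(x_i, p)`, where `x_i` is a bound variable in scope. -/
def inst₁ {n m : ℕ} (i : Fin m) (φ : Lset.Formula (Fin (n + 1))) :
    Lset.BoundedFormula (Fin n) m :=
  BoundedFormula.relabel (Fin.cases (Sum.inr i) Sum.inl : Fin (n + 1) → Fin n ⊕ Fin m) φ

/-! The variables of the following sentences are `x_0, x_1, …`; the `k`-th nested quantifier
binds `x_{k-1}`. -/

/-- Extensionality: `∀ x_0 ∀ x_1 (∀ x_2 (x_2 ∈ x_0 ↔ x_2 ∈ x_1) → x_0 = x_1)`. -/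
def axExt : Lset.Sentence :=
  ∀' ∀' ((∀' ((memB 2 0).iff (memB 2 1))) ⟹ eqB 0 1)

/-- Foundation: `∀ x_0 (∃ x_1 (x_1 ∈ x_0) →
∃ x_1 (x_1 ∈ x_0 ∧ ¬ ∃ x_2 (x_2 ∈ x_0 ∧ x_2 ∈ x_1)))`. -/
def axFound : Lset.Sentence :=
  ∀' ((∃' (memB 1 0)) ⟹ ∃' (memB 1 0 ⊓ ∼(∃' (memB 2 0 ⊓ memB 2 1))))

/-- Pairing: `∀ x_0 ∀ x_1 ∃ x_2 ∀ x_3 (x_3 ∈ x_2 ↔ x_3 = x_0 ∨ x_3 = x_1)`. -/
def axPair : Lset.Sentence :=
  ∀' ∀' ∃' ∀' ((memB 3 2).iff (eqB 3 0 ⊔ eqB 3 1))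

/-- Union: `∀ x_0 ∃ x_1 ∀ x_2 (x_2 ∈ x_1 ↔ ∃ x_3 (x_3 ∈ x_0 ∧ x_2 ∈ x_3))`. -/
def axUnion : Lset.Sentence :=
  ∀' ∃' ∀' ((memB 2 1).iff (∃' (memB 3 0 ⊓ memB 2 3)))

/-- Power set: `∀ x_0 ∃ x_1 ∀ x_2 (x_2 ∈ x_1 ↔ ∀ x_3 (x_3 ∈ x_2 → x_3 ∈ x_0))`. -/
def axPower : Lset.Sentence :=
  ∀' ∃' ∀' ((memB 2 1).iff (∀' (memB 3 2 ⟹ memB 3 0)))

/-- `∃ x_1 (x_1 ∈ x_0 ∧ ∀ x_2 (¬ x_2 ∈ x_1))`: an element of `x_0` is empty. -/
def hasEmpty : Lset.BoundedFormula Empty 1 :=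
  ∃' (memB 1 0 ⊓ ∀' ∼(memB 2 1))

/-- `∃ x_2 (x_2 ∈ x_0 ∧ ∀ x_3 (x_3 ∈ x_2 ↔ x_3 ∈ x_1 ∨ x_3 = x_1))`: the set `x_1 ∪ {x_1}` is
an element of `x_0`. -/
def hasSucc : Lset.BoundedFormula Empty 2 :=
  ∃' (memB 2 0 ⊓ ∀' ((memB 3 2).iff (memB 3 1 ⊔ eqB 3 1)))

/-- Infinity: there is `x_0` with an empty element and, with each `x_1 ∈ x_0`, the element
`x_1 ∪ {x_1}`. -/
def axInf : Lset.Sentence :=
  ∃' (hasEmpty ⊓ ∀' (memB 1 0 ⟹ hasSucc))

/-- Separation for `φ(z, p_1, …, p_n)`: for all `p`,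
`∀ x_0 ∃ x_1 ∀ x_2 (x_2 ∈ x_1 ↔ x_2 ∈ x_0 ∧ φ(x_2, p))`. -/
def axSep {n : ℕ} (φ : Lset.Formula (Fin (n + 1))) : Lset.Sentence :=
  univClosure (k := n) <|
    ∀' ∃' ∀' ((memB 2 1).iff (memB 2 0 ⊓ inst₁ 2 φ))

/-- `∀ x_1 (x_1 ∈ x_0 → ∃ x_2 (φ(x_1, x_2, p) ∧ ∀ x_3 (φ(x_1, x_3, p) → x_3 = x_2)))`: on `x_0`
the formula `φ` defines a function. -/
def isFunctional {n : ℕ} (φ : Lset.Formula (Fin (n + 2))) : Lset.BoundedFormula (Fin n) 1 :=
  ∀' (memB 1 0 ⟹ ∃' (inst₂ 1 2 φ ⊓ ∀' (inst₂ 1 3 φ ⟹ eqB 3 2)))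

/-- `∃ x_1 ∀ x_2 (x_2 ∈ x_1 ↔ ∃ x_3 (x_3 ∈ x_0 ∧ φ(x_3, x_2, p)))`: the image of `x_0` under
`φ` is a set. -/
def hasImage {n : ℕ} (φ : Lset.Formula (Fin (n + 2))) : Lset.BoundedFormula (Fin n) 1 :=
  ∃' ∀' ((memB 2 1).iff (∃' (memB 3 0 ⊓ inst₂ 3 2 φ)))

/-- Replacement for `φ(x, y, p_1, …, p_n)`: for all `p` and `x_0`, if for every `x ∈ x_0` there
is exactly one `y` with `φ(x, y, p)`, then the `y` with `φ(x, y, p)` for some `x ∈ x_0` form a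
set. -/
def axRepl {n : ℕ} (φ : Lset.Formula (Fin (n + 2))) : Lset.Sentence :=
  univClosure (k := n) <| ∀' (isFunctional φ ⟹ hasImage φ)

/-- `∀ x_1 (x_1 ∈ x_0 → ∃ x_2 (x_2 ∈ x_1))`: the elements of `x_0` are nonempty. -/
def allNonempty : Lset.BoundedFormula Empty 1 :=
  ∀' (memB 1 0 ⟹ ∃' (memB 2 1))

/-- `∀ x_1 ∀ x_2 (x_1 ∈ x_0 ∧ x_2 ∈ x_0 ∧ ∃ x_3 (x_3 ∈ x_1 ∧ x_3 ∈ x_2) → x_1 = x_2)`: the
elements of `x_0` are pairwise disjoint. -/
def allDisjoint : Lset.BoundedFormula Empty 1 :=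
  ∀' ∀' ((memB 1 0 ⊓ memB 2 0 ⊓ (∃' (memB 3 1 ⊓ memB 3 2))) ⟹ eqB 1 2)

/-- `∃ x_3 (x_3 ∈ x_2 ∧ x_3 ∈ x_1 ∧ ∀ x_4 (x_4 ∈ x_2 ∧ x_4 ∈ x_1 → x_4 = x_3))`: `x_2` and
`x_1` have exactly one element in common. -/
def meetOnce : Lset.BoundedFormula Empty 3 :=
  ∃' (memB 3 2 ⊓ memB 3 1 ⊓ ∀' ((memB 4 2 ⊓ memB 4 1) ⟹ eqB 4 3))

/-- Choice: if the elements of `x_0` are nonempty and pairwise disjoint, then
`∃ x_1 ∀ x_2 (x_2 ∈ x_0 → x_1 and x_2 have exactly one element in common)`. -/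
def axChoice : Lset.Sentence :=
  ∀' ((allNonempty ⊓ allDisjoint) ⟹ ∃' ∀' (memB 2 0 ⟹ meetOnce))

/-- Zermelo-Fraenkel set theory with choice. -/
def ZFC : Lset.Theory :=
  {axExt, axFound, axPair, axUnion, axPower, axInf, axChoice} ∪
  {σ | ∃ (n : ℕ) (φ : Lset.Formula (Fin (n + 1))), σ = axSep φ} ∪
  {σ | ∃ (n : ℕ) (φ : Lset.Formula (Fin (n + 2))), σ = axRepl φ}

/-- `Δ₀`-formulas: built from atomic formulas by Boolean connectives and bounded quantifiers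
`∀ x ∈ t` and `∃ x ∈ t`. -/
inductive IsDelta0 {α : Type} : ∀ {n : ℕ}, Lset.BoundedFormula α n → Prop
  | falsum {n : ℕ} : IsDelta0 (⊥ : Lset.BoundedFormula α n)
  | equal {n : ℕ} (t₁ t₂ : Lset.Term (α ⊕ Fin n)) : IsDelta0 (t₁ =' t₂)
  | mem {n : ℕ} (t₁ t₂ : Lset.Term (α ⊕ Fin n)) : IsDelta0 (memF t₁ t₂)
  | imp {n : ℕ} {φ ψ : Lset.BoundedFormula α n} (h₁ : IsDelta0 φ) (h₂ : IsDelta0 ψ) :
      IsDelta0 (φ ⟹ ψ)
  | ball {n : ℕ} (t : Lset.Term (α ⊕ Fin n)) {φ : Lset.BoundedFormula α (n + 1)}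
      (h : IsDelta0 φ) :
      IsDelta0 (∀' ((memF (&(Fin.last n)) (t.relabel (Sum.map id Fin.castSucc))) ⟹ φ))
  | bex {n : ℕ} (t : Lset.Term (α ⊕ Fin n)) {φ : Lset.BoundedFormula α (n + 1)}
      (h : IsDelta0 φ) :
      IsDelta0 (∃' ((memF (&(Fin.last n)) (t.relabel (Sum.map id Fin.castSucc))) ⊓ φ))

/-- `φ` is, provably in `ZFC`, equivalent to a `Δ₀`-formula in the same variables. -/
def IsDelta0ZFC {k : ℕ} (φ : Lset.Formula (Fin k)) : Prop :=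
  ∃ δ : Lset.Formula (Fin k), IsDelta0 δ ∧ ZFC ⊨ᵇ φ.iff δ

/-- The pairs `(φ, 0)` with `φ` a `Δ₀`-formula, and `(φ, 1)` with `φ(y, x)` a `Δ₀`-formula such
that `ZFC` proves that for all `x` there is exactly one `y` with `φ(y, x)`; here `Δ₀` is
understood up to equivalence provable in `ZFC`. -/
def deltaZeroSig : Set (FormBit Lset) :=
  {p | IsDelta0ZFC p.2.1 ∧ (p.2.2 = true → ZFC ⊨ᵇ existsUnique p.2.1)}

/-- The sentence `∀ x ((∀ y, y ∉ x) ↔ x = c_∈)`. -/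
def axC {A : Set (FormBit Lset)}
    (h : ∃ (n : ℕ) (φ : Lset.Formula (Fin (n + 1))), (⟨n, φ, true⟩ : FormBit Lset) ∈ A) :
    (morleyLang A).Sentence :=
  ∀' ((∀' ∼((morleyIncl A).onBoundedFormula (memB 1 0))).iff ((&0) =' cTerm h))

/-- The theory `T_{∈,A}`: the theory `T_{{∈},A}` together with the statement that `c_∈` is the
empty set. -/
def setMorleyTheory (A : Set (FormBit Lset)) : (morleyLang A).Theory :=
  morleyTheory A ∪
  {σ | ∃ h : ∃ (n : ℕ) (φ : Lset.Formula (Fin (n + 1))), (⟨n, φ, true⟩ : FormBit Lset) ∈ A,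
      σ = axC h}

end SetTheory

end Pool.Agent.Lib.MP_918dbb_lc
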