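import Pool.Agent.Lib.MP_918dbb_lc.Morley

/-!
# The quantifier-free diagram
-/

universe w w'

namespace Pool.Agent.Lib.MP_918dbb_lc

open FirstOrder FirstOrder.Language

variable {L : Language.{0, 0}}

theorem isQF_foldr_inf {α : Type} {n : ℕ} (l : List (L.BoundedFormula α n))
    (h : ∀ φ ∈ l, φ.IsQF) : (l.foldr (· ⊓ ·) ⊤).IsQF := by
  induction l with
  | nil => exact BoundedFormula.IsQF.top
  | cons a l ih =>
    simp only [List.foldr_cons]
    exact (h a (by simp)).inf (ih fun φ hφ => h φ (by simp [hφ]))

theorem isQF_iInf {α β : Type} [Finite β] {n : ℕ} (f : β → L.BoundedFormula α n)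
    (h : ∀ b, (f b).IsQF) : (BoundedFormula.iInf f).IsQF := by
  unfold BoundedFormula.iInf
  apply isQF_foldr_inf
  intro φ hφ
  simp only [List.mem_map] at hφ
  obtain ⟨b, -, rfl⟩ := hφ
  exact h b

theorem isQF_restrictFreeVar {α β : Type} [DecidableEq α] {n : ℕ} {φ : L.BoundedFormula α n}
    (h : φ.IsQF) (f : φ.freeVarFinset → β) : (φ.restrictFreeVar f).IsQF := by
  induction h with
  | falsum => exact BoundedFormula.IsQF.falsum
  | of_isAtomic h =>
    cases h with
    | equal t₁ t₂ => exact (BoundedFormula.IsAtomic.equal _ _).isQF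
    | rel R ts => exact (BoundedFormula.IsAtomic.rel _ _).isQF
  | imp _ _ ih₁ ih₂ => exact (ih₁ _).imp (ih₂ _)

/-- A quantifier-free formula in arbitrary variables is, for questions of satisfiability, a
quantifier-free formula in finitely many numbered variables. -/
theorem exists_numbered {β : Type} (δ : L.Formula β) (hδ : δ.IsQF) :
    ∃ (k : ℕ) (δ' : L.BoundedFormula Empty k), δ'.IsQF ∧
      ∀ (M : Type) [L.Structure M] [Nonempty M],
        (∃ ys : Fin k → M, δ'.Realize (default : Empty → M) ys) ↔
          ∃ v : β → M, δ.Realize v := by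
  classical
  obtain ⟨k, ⟨e⟩⟩ := Finite.exists_equiv_fin δ.freeVarFinset
  refine ⟨k, (BoundedFormula.relabel (Sum.inr ∘ e : δ.freeVarFinset → Empty ⊕ Fin k)
    (δ.restrictFreeVar id) : L.BoundedFormula Empty k), ?_, ?_⟩
  · exact BoundedFormula.IsQF.relabel (isQF_restrictFreeVar hδ id) _
  · intro M _ _
    have key : ∀ (v : β → M) (ys : Fin k → M), (∀ a, ys (e a) = v a) →
        ((BoundedFormula.relabel (Sum.inr ∘ e : δ.freeVarFinset → Empty ⊕ Fin k)
          (δ.restrictFreeVar id) : L.BoundedFormula Empty k).Realize
            (default : Empty → M) ys ↔ δ.Realize v) := by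
      intro v ys h
      rw [BoundedFormula.realize_relabel]
      rw [BoundedFormula.realize_restrictFreeVar v]
      · rw [Formula.boundedFormula_realize_eq_realize]
      · intro a
        simpa using h a
    constructor
    · rintro ⟨ys, hys⟩
      refine ⟨fun b => if h : b ∈ δ.freeVarFinset then ys (e ⟨b, h⟩) else
        Classical.arbitrary M, ?_⟩
      refine (key _ ys ?_).1 hys
      intro a
      simp
    · rintro ⟨v, hv⟩
      refine ⟨fun i => v (e.symm i), (key v _ ?_).2 hv⟩
      intro a
      simp

/-- If every quantifier-free formula satisfied in `N` by the elements of `N` can be satisfied in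
a model of `T`, then `N` embeds into a model of `T`. -/
theorem exists_embedding (N : Type) [L.Structure N] [Nonempty N] (T : L.Theory)
    (H : ∀ δ : L.Formula N, δ.IsQF → δ.Realize (id : N → N) →
      ∃ (M : Theory.ModelType.{0, 0, 0} T) (v : N → M), δ.Realize v) :
    ∃ M : Theory.ModelType.{0, 0, 0} T, Nonempty (N ↪[L] M) := by
  classical
  set D : L[[N]].Theory := {σ | ∃ δ : L.Formula N, δ.IsQF ∧ δ.Realize (id : N → N) ∧
    σ = Formula.equivSentence δ} with hD
  have hsat : ((L.lhomWithConstants N).onTheory T ∪ D).IsSatisfiable := by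
    rw [Theory.isSatisfiable_iff_isFinitelySatisfiable]
    intro T0 hT0
    have hch : ∀ σ : T0, ∃ δ : L.Formula N, δ.IsQF ∧ δ.Realize (id : N → N) ∧
        (σ.1 ∈ D → σ.1 = Formula.equivSentence δ) := by
      intro σ
      by_cases h : σ.1 ∈ D
      · obtain ⟨δ, h1, h2, h3⟩ := h
        exact ⟨δ, h1, h2, fun _ => h3⟩
      · exact ⟨⊤, BoundedFormula.IsQF.top, Formula.realize_top.2 trivial, fun h' => absurd h' h⟩
    choose δ h1 h2 h3 using hch
    obtain ⟨M, v, hv⟩ := H (BoundedFormula.iInf δ) (isQF_iInf δ h1) (by
      rw [Formula.Realize, BoundedFormula.realize_iInf]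
      exact h2)
    let _ : (constantsOn N).Structure M := constantsOn.structure v
    have hM : M ⊨ (T0 : L[[N]].Theory) := by
      refine ⟨fun σ hσ => ?_⟩
      rcases hT0 hσ with h | h
      · rw [LHom.mem_onTheory] at h
        obtain ⟨φ₀, hφ₀, rfl⟩ := h
        rw [LHom.realize_onSentence]
        exact T.realize_sentence_of_mem hφ₀
      · have hr : M ⊨ Formula.equivSentence (δ ⟨σ, hσ⟩) := by
          rw [Formula.realize_equivSentence]
          rw [Formula.Realize, BoundedFormula.realize_iInf] at hv
          exact hv ⟨σ, hσ⟩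
        exact Eq.mpr (congrArg (fun s : L[[N]].Sentence => M ⊨ s) (h3 ⟨σ, hσ⟩ h)) hr
    exact Theory.Model.isSatisfiable M
  obtain ⟨M⟩ := hsat
  let _ : L.Structure M := (L.lhomWithConstants N).reduct M
  have hMT : M ⊨ T := by
    have h : M ⊨ (L.lhomWithConstants N).onTheory T := M.is_model.mono Set.subset_union_left
    exact (LHom.onTheory_model _ _).1 h
  have hMD : ∀ δ : L.Formula N, δ.IsQF → δ.Realize (id : N → N) →
      δ.Realize (fun a => (L.con a : M)) := by
    intro δ h h'
    have h2 : M ⊨ D := M.is_model.mono Set.subset_union_right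
    have h3 := h2.realize_of_mem (Formula.equivSentence δ) ⟨δ, h, h', rfl⟩
    exact (Formula.realize_equivSentence M δ).1 h3
  refine ⟨⟨M⟩, ⟨?_⟩⟩
  refine { toFun := fun a => (L.con a : M), inj' := ?_, map_fun' := ?_, map_rel' := ?_ }
  · intro a b hab
    by_contra hne
    have := hMD (Term.equal (Term.var a) (Term.var b)).not
      ((BoundedFormula.IsAtomic.equal _ _).isQF.not)
      (by rw [Formula.realize_not, Formula.realize_equal]; exact hne)
    rw [Formula.realize_not, Formula.realize_equal] at this
    exact this hab
  · intro n f x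
    have := hMD (Term.equal (Term.func f fun i => Term.var (x i))
        (Term.var (Structure.funMap f x)))
      ((BoundedFormula.IsAtomic.equal _ _).isQF)
      (by rw [Formula.realize_equal]; rfl)
    rw [Formula.realize_equal] at this
    exact this.symm
  · intro n r x
    constructor
    · intro h
      by_contra hne
      have := hMD (Relations.formula r fun i => Term.var (x i)).not
        ((BoundedFormula.IsAtomic.rel _ _).isQF.not)
        (by rw [Formula.realize_not, Formula.realize_rel]; exact hne)
      rw [Formula.realize_not, Formula.realize_rel] at this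
      exact this h
    · intro h
      have := hMD (Relations.formula r fun i => Term.var (x i))
        ((BoundedFormula.IsAtomic.rel _ _).isQF)
        (by rw [Formula.realize_rel]; exact h)
      rw [Formula.realize_rel] at this
      exact this

end Pool.Agent.Lib.MP_918dbb_lc
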