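import Pool.Agent.Lib.MP_918dbb_lc.Core

/-!
# Model companion without absolute model companion, from a pair of models
-/

universe u₀ u₁ w

namespace Pool.Agent.Lib.MP_918dbb_lc

open FirstOrder FirstOrder.Language

/-- The formula `y = ∅`. -/
def emptyF : Lset.Formula (Fin 1) :=
  ∀' ((memF (&(Fin.last 0)) ((Term.var (Sum.inl 0)).relabel (Sum.map id Fin.castSucc))) ⟹ ⊥)

theorem realize_emptyF {M : Type w} [Lset.Structure M] (v : Fin 1 → M) :
    emptyF.Realize v ↔ ∀ y : M, ¬ E y (v 0) := by
  simp [emptyF, Formula.Realize, realize_memF, Fin.snoc]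

theorem isDelta0ZFC_of {k : ℕ} {φ : Lset.Formula (Fin k)} (h : IsDelta0 φ) : IsDelta0ZFC φ :=
  ⟨φ, h, fun M v xs => by rw [BoundedFormula.realize_iff]⟩

theorem emptyF_mem : (⟨0, emptyF, true⟩ : FormBit Lset) ∈ deltaZeroSig := by
  refine ⟨isDelta0ZFC_of (IsDelta0.ball _ IsDelta0.falsum), fun _ => ?_⟩
  rw [Theory.models_formula_iff]
  intro M v
  rw [realize_existsUnique]
  obtain ⟨e, he⟩ := exists_empty (M := M) M.is_model
  refine ⟨e, ?_, ?_⟩
  · change emptyF.Realize _
    rw [realize_emptyF]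
    exact he
  · intro y hy
    change emptyF.Realize _ at hy
    rw [realize_emptyF] at hy
    exact empty_unique (M := M) M.is_model hy he

theorem hasFn_sigA (U : Lset.Formula (Fin 1)) : HasFn (sigA U) :=
  ⟨0, emptyF, Or.inl emptyF_mem⟩

section Main

variable {M₀ : Type u₀} {M₁ : Type u₁} [Lset.Structure M₀] [Lset.Structure M₁]
  {j : M₀ → M₁} {U : Lset.Formula (Fin 1)}

/-- The theory `S`: all sentences true in both models. -/
def commonTheory (M₀ : Type u₀) (M₁ : Type u₁) [Lset.Structure M₀] [Lset.Structure M₁] :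
    Lset.Theory :=
  Lset.completeTheory M₀ ∩ Lset.completeTheory M₁

theorem zfc_sub_common (hP : Pair j U) : ZFC ⊆ commonTheory M₀ M₁ :=
  Set.subset_inter (Theory.model_iff_subset_completeTheory.1 hP.zfc₀)
    (Theory.model_iff_subset_completeTheory.1 hP.zfc₁)

theorem model_common₀ : M₀ ⊨ commonTheory M₀ M₁ :=
  Theory.model_iff_subset_completeTheory.2 Set.inter_subset_left

theorem model_common₁ : M₁ ⊨ commonTheory M₀ M₁ :=
  Theory.model_iff_subset_completeTheory.2 Set.inter_subset_right

theorem models_common_iff [Nonempty M₀] [Nonempty M₁] (hP : Pair j U) (b : Bool)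
    (ψ : (morleyLang (sigA U)).Sentence) :
    ((morleyIncl (sigA U)).onTheory (commonTheory M₀ M₁) ∪ bMorley b (sigA U)) ⊨ᵇ ψ ↔
      M₀ ⊨ closeC b ψ ∧ M₁ ⊨ closeC b ψ := by
  constructor
  · intro h
    exact ⟨closeC_of_models b (hasFn_sigA U) _ (zfc_sub_common hP) h model_common₀,
      closeC_of_models b (hasFn_sigA U) _ (zfc_sub_common hP) h model_common₁⟩
  · rintro ⟨h₀, h₁⟩
    exact models_of_closeC b (hasFn_sigA U) _ (zfc_sub_common hP) ⟨h₀, h₁⟩

theorem models_complete_iff [Nonempty M₁] (hP : Pair j U) (b : Bool)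
    (ψ : (morleyLang (sigA U)).Sentence) :
    ((morleyIncl (sigA U)).onTheory (Lset.completeTheory M₁) ∪ bMorley b (sigA U)) ⊨ᵇ ψ ↔
      M₁ ⊨ closeC b ψ := by
  constructor
  · intro h
    exact closeC_of_models b (hasFn_sigA U) _
      (Theory.model_iff_subset_completeTheory.1 hP.zfc₁) h inferInstance
  · intro h₁
    exact models_of_closeC b (hasFn_sigA U) _
      (Theory.model_iff_subset_completeTheory.1 hP.zfc₁) h₁

/-- The sentence `∃ y U(y)`. -/
def exU (U : Lset.Formula (Fin 1)) : Lset.Sentence :=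
  (univClosure U.not).not

theorem realize_exU {M : Type w} [Lset.Structure M] :
    M ⊨ exU U ↔ ∃ y : M, U.Realize fun _ => y := by
  unfold exU
  rw [Sentence.realize_not, realize_univClosure]
  simp only [Formula.realize_not, not_forall, not_not]
  constructor
  · rintro ⟨x, hx⟩
    refine ⟨x 0, ?_⟩
    rwa [show (fun _ => x 0) = x from funext fun i => by rw [Subsingleton.elim i 0] ]
  · rintro ⟨y, hy⟩
    exact ⟨_, hy⟩

/-- Every theory of the form `S₁ + T_A` with `S₁ ⊇ ZFC + ∃ y U(y)` is model complete. -/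
theorem isModelComplete_of (b : Bool) (S₁ : Lset.Theory) (hS : ZFC ⊆ S₁) (hU : exU U ∈ S₁) :
    IsModelComplete.{w}
      ((morleyIncl (sigA U)).onTheory S₁ ∪ bMorley b (sigA U)) := by
  intro M N _ _ _ _ hM hN f
  let _ : Lset.Structure M := (morleyIncl (sigA U)).reduct M
  let _ : Lset.Structure N := (morleyIncl (sigA U)).reduct N
  obtain ⟨hMS, c, hc, hok⟩ := (model_full_iff b (hasFn_sigA U) S₁ hS (M := M)).1 hM
  obtain ⟨hNS, d, hd, hok'⟩ := (model_full_iff b (hasFn_sigA U) S₁ hS (M := N)).1 hN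
  have hfc : f c = d := by
    have h := f.map_fun (MFun.const (hasFn_sigA U)) (default : Fin 0 → M)
    rw [hc.const, hd.const] at h
    exact h
  obtain ⟨y, hy⟩ := realize_exU.1 (hMS.realize_of_mem _ hU)
  have key : ∀ ⦃n : ℕ⦄ (φ : (morleyLang (sigA U)).Formula (Fin n)) (x : Fin n → M),
      φ.Realize x → φ.Realize (f ∘ x) := by
    intro n φ x hx
    set φ' : Lset.Formula (Fin (n + 1)) := Formula.relabel finSumFinEquiv (trBF φ) with hφ'
    have t : ∀ {N' : Type w} [Lset.Structure N'] [(morleyLang (sigA U)).Structure N'] {c : N'}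
        (hc : Expands (sigA U) N' c) (x : Fin n → N'),
        φ'.Realize (Fin.snoc x c : Fin (n + 1) → N') ↔ φ.Realize x := by
      intro N' _ _ c hc x
      rw [hφ', Formula.realize_relabel]
      have e : (Fin.snoc x c : Fin (n + 1) → N') ∘ finSumFinEquiv =
          Sum.elim x fun _ : Fin 1 => c := by
        funext i
        rcases i with i | i
        · have : (finSumFinEquiv (Sum.inl i) : Fin (n + 1)) = i.castSucc := by simp; rfl
          simp only [Function.comp_apply, this, Fin.snoc_castSucc, Sum.elim_inl]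
        · have : (finSumFinEquiv (Sum.inr i) : Fin (n + 1)) = Fin.last n := by
            rw [Subsingleton.elim i 0]; simp; rfl
          simp only [Function.comp_apply, this, Fin.snoc_last, Sum.elim_inr]
      rw [e]
      exact realize_trBF hc φ x default
    have h1 : (theta U φ').Realize (Fin.cons y (Fin.snoc x c : Fin (n + 1) → M)) := by
      rw [realize_theta]
      exact ⟨hy, (t hc x).2 hx⟩
    have h2 := (hc.rel (theta U φ') (theta_mem U φ') _).2 h1
    have h3 := (f.map_rel (MRel.rel (theta U φ') (theta_mem U φ')) _).2 h2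
    have h4 := (hd.rel (theta U φ') (theta_mem U φ') _).1 h3
    rw [realize_theta] at h4
    have h5 := h4.2
    rw [← t hd, ← hfc]
    convert h5 using 1
    funext i
    refine Fin.lastCases ?_ (fun i => ?_) i
    · simp
    · simp
  refine ⟨{ toFun := f, map_formula' := ?_ }, fun _ => rfl⟩
  intro n φ x
  refine ⟨fun h => ?_, key φ x⟩
  by_contra hne
  exact key φ.not x hne h

theorem isModelCompanion [Nonempty M₀] [Nonempty M₁] (hP : Pair j U) (b : Bool) :
    IsModelCompanion.{w}
      ((morleyIncl (sigA U)).onTheory (Lset.completeTheory M₁) ∪ bMorley b (sigA U))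
      ((morleyIncl (sigA U)).onTheory (commonTheory M₀ M₁) ∪ bMorley b (sigA U)) := by
  refine ⟨?_, isModelComplete_of b _ (Theory.model_iff_subset_completeTheory.1 hP.zfc₁)
    (realize_exU.2 hP.U₁)⟩
  ext ψ
  simp only [univPart, Set.mem_ofPred_eq]
  refine and_congr_right fun hψ => ?_
  rw [models_complete_iff hP, models_common_iff hP]
  exact ⟨fun h => ⟨closeC_down hP b hψ h, h⟩, fun h => h.2⟩

end Main

end Pool.Agent.Lib.MP_918dbb_lc
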