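import Pool.Agent.Lib.MP_918dbb_lc.Two

/-!
# The two models
-/

universe w

namespace Pool.Agent.Lib.MP_918dbb_lc

open FirstOrder FirstOrder.Language

/-- The collapse of the hereditarily small sets into `ZFSet.{0}`. -/
noncomputable def col : ZFSet.{1} → ZFSet.{0} :=
  ZFSet.mem_wf.fix fun x f =>
    open Classical in
    if h : Small.{0} x then
      @ZFSet.range x h (fun y : x => f y.1 y.2)
    else ∅

theorem mem_col {x : ZFSet.{1}} (h : Small.{0} x) (t : ZFSet.{0}) :
    t ∈ col x ↔ ∃ y ∈ x, col y = t := by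
  have e : col x = @ZFSet.range x h (fun y : x => col y.1) := by
    unfold col
    rw [WellFounded.fix_eq]
    rw [dif_pos h]
  rw [e, ZFSet.mem_range]
  constructor
  · rintro ⟨y, rfl⟩
    exact ⟨y.1, y.2, rfl⟩
  · rintro ⟨y, hy, rfl⟩
    exact ⟨⟨y, hy⟩, rfl⟩

theorem col_inj : ∀ x ∈ HS, ∀ y ∈ HS, col x = col y → x = y := by
  intro x
  induction x using ZFSet.inductionOn with
  | h x ih =>
    intro hx y hy hxy
    have hx' := mem_HS.1 hx
    have hy' := mem_HS.1 hy
    ext z
    constructor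
    · intro hz
      have h1 : col z ∈ col y := by
        rw [← hxy]
        exact (mem_col hx'.1 _).2 ⟨z, hz, rfl⟩
      obtain ⟨t, ht, htz⟩ := (mem_col hy'.1 _).1 h1
      have := ih z hz (hx'.2 z hz) t (hy'.2 t ht) htz.symm
      rw [this]
      exact ht
    · intro hz
      have h1 : col z ∈ col x := by
        rw [hxy]
        exact (mem_col hy'.1 _).2 ⟨z, hz, rfl⟩
      obtain ⟨t, ht, htz⟩ := (mem_col hx'.1 _).1 h1
      have := ih t ht (hx'.2 t ht) z (hy'.2 z hz) htz
      rw [← this]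
      exact ht

instance small_HS : Small.{1} HS := by
  have hinj : Function.Injective (fun x : HS => col x.1) := by
    intro a b hab
    exact Subtype.ext (col_inj _ a.2 _ b.2 hab)
  exact small_of_injective hinj

/-- A universe in `ZFSet.{1}`. -/
noncomputable def bigU : ZFSet.{1} := ZFSet.range (fun z : HS => z.1)

theorem mem_bigU (z : ZFSet.{1}) : z ∈ bigU ↔ z ∈ HS := by
  unfold bigU
  rw [ZFSet.mem_range]
  constructor
  · rintro ⟨y, rfl⟩
    exact y.2
  · intro h
    exact ⟨⟨z, h⟩, rfl⟩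

/-- `y` is a universe. -/
def IsUnivSet (y : ZFSet.{1}) : Prop := UClass {z : ZFSet.{1} | z ∈ y}

theorem exists_univ : ∃ y, IsUnivSet y := by
  refine ⟨bigU, ?_⟩
  unfold IsUnivSet
  have : {z : ZFSet.{1} | z ∈ bigU} = HS := by
    ext z
    exact mem_bigU z
  rw [this]
  exact uclass_HS

/-- There is a universe without universes among its elements. -/
theorem exists_least : ∃ y, IsUnivSet y ∧ ∀ z ∈ y, ¬ IsUnivSet z := by
  obtain ⟨y, hy⟩ := exists_univ
  have hne : ({y | IsUnivSet y} : Set ZFSet.{1}).Nonempty := ⟨y, hy⟩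
  refine ⟨ZFSet.mem_wf.min _ hne, ZFSet.mem_wf.min_mem _ hne, ?_⟩
  intro z hz hzU
  exact ZFSet.mem_wf.not_lt_min _ hzU hz

/-- The least universe. -/
noncomputable def leastU : ZFSet.{1} := exists_least.choose

/-- The elements of the least universe. -/
noncomputable def C₀ : Set ZFSet.{1} := {z | z ∈ leastU}

/-- All sets. -/
def C₁ : Set ZFSet.{1} := Set.univ

theorem uclass_C₀ : UClass C₀ := exists_least.choose_spec.1

theorem uclass_C₁ : UClass C₁ where
  trans _ _ _ _ := trivial
  inf := trivial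
  pr _ _ _ _ := trivial
  pow _ _ := trivial
  sUn _ _ := trivial
  img x _ f _ := by
    refine ⟨ZFSet.range (fun z : x => f z.1), trivial, fun t => ?_⟩
    rw [ZFSet.mem_range]
    constructor
    · rintro ⟨z, rfl⟩
      exact ⟨z.1, z.2, rfl⟩
    · rintro ⟨z, hz, rfl⟩
      exact ⟨⟨z, hz⟩, rfl⟩

instance : Nonempty C₀ := ⟨⟨∅, uclass_C₀.empty_mem⟩⟩

instance : Nonempty C₁ := ⟨⟨∅, trivial⟩⟩

/-- The inclusion. -/
def incl (x : C₀) : C₁ := ⟨x.1, trivial⟩

theorem pair_models : Pair incl univF where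
  ext :=
    { inj := fun a b h => Subtype.ext (congrArg (fun x : C₁ => x.1) h)
      mem := fun x y => Iff.rfl
      down := fun a b h => ⟨⟨b.1, uclass_C₀.trans _ a.2 _ h⟩, rfl⟩ }
  zfc₀ := uclass_C₀.model_zfc
  zfc₁ := uclass_C₁.model_zfc
  U₀ a := by
    rw [realize_univF, isU_iff uclass_C₀]
    exact exists_least.choose_spec.2 a.1 a.2
  U₀₁ a := by
    rw [realize_univF, isU_iff uclass_C₁]
    exact exists_least.choose_spec.2 a.1 a.2
  U₁ := by
    refine ⟨⟨leastU, trivial⟩, ?_⟩
    rw [realize_univF, isU_iff uclass_C₁]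
    exact uclass_C₀

/-- The answer to the question. -/
theorem main_thm :
    ∃ (S : Lset.Theory) (A : Set (FormBit Lset)), ZFC ⊆ S ∧ deltaZeroSig ⊆ A ∧
      (∃ T : (morleyLang A).Theory,
        IsModelCompanion.{w} T ((morleyIncl A).onTheory S ∪ setMorleyTheory A)) ∧
      (¬ ∃ T : (morleyLang A).Theory,
        IsAMC.{w} T ((morleyIncl A).onTheory S ∪ setMorleyTheory A)) ∧
      (∃ T : (morleyLang A).Theory,
        IsModelCompanion.{w} T ((morleyIncl A).onTheory S ∪ morleyTheory A)) ∧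
      (¬ ∃ T : (morleyLang A).Theory,
        IsAMC.{w} T ((morleyIncl A).onTheory S ∪ morleyTheory A)) := by
  refine ⟨commonTheory C₀ C₁, sigA univF, zfc_sub_common pair_models, Set.subset_union_left,
    ⟨_, isModelCompanion pair_models true⟩, ?_, ⟨_, isModelCompanion pair_models false⟩, ?_⟩
  · rintro ⟨T, hT⟩
    exact not_isAMC pair_models true T hT
  · rintro ⟨T, hT⟩
    exact not_isAMC pair_models false T hT

end Pool.Agent.Lib.MP_918dbb_lc
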