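import Pool.Agent.Lib.MP_918dbb_lc.Trans

/-!
# Models of Morleyizations
-/

universe w w'

namespace Pool.Agent.Lib.MP_918dbb_lc

open FirstOrder FirstOrder.Language

variable {A : Set (FormBit Lset)}

/-- `(φ,1) ∈ A` for some `φ`. -/
abbrev HasFn (A : Set (FormBit Lset)) : Prop :=
  ∃ (n : ℕ) (φ : Lset.Formula (Fin (n + 1))), (⟨n, φ, true⟩ : FormBit Lset) ∈ A

section Realize

variable {M : Type w} [Lset.Structure M] [(morleyLang A).Structure M]
  [(morleyIncl A).IsExpansionOn M]

theorem realize_ax0 {n : ℕ} (φ : Lset.Formula (Fin (n + 1)))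
    (h : (⟨n, φ, false⟩ : FormBit Lset) ∈ A) :
    M ⊨ ax0 φ h ↔ ∀ x : Fin (n + 1) → M,
      (φ.Realize x ↔ Structure.RelMap (L := morleyLang A) (MRel.rel φ h) x) := by
  unfold ax0
  rw [realize_univClosure]
  refine forall_congr' fun x => ?_
  rw [Formula.realize_iff, LHom.realize_onFormula, Formula.realize_rel]
  rfl

omit [Lset.Structure M] [(morleyIncl A).IsExpansionOn M] in
theorem realize_cTerm (h : HasFn A) {α : Type} (v : α → M) :
    (cTerm h : (morleyLang A).Term α).realize v =
      Structure.funMap (L := morleyLang A) (MFun.const h) (default : Fin 0 → M) := by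
  unfold cTerm
  simp only [Term.realize]
  congr 1
  exact Subsingleton.elim _ _

theorem realize_ax1 {n : ℕ} (φ : Lset.Formula (Fin (n + 1)))
    (h : (⟨n, φ, true⟩ : FormBit Lset) ∈ A) :
    M ⊨ ax1 φ h ↔ ∀ x : Fin n → M,
      ((∃! y : M, φ.Realize (Fin.cons y x : Fin (n + 1) → M)) →
        φ.Realize (Fin.cons (Structure.funMap (L := morleyLang A) (MFun.fn φ h) x) x :
          Fin (n + 1) → M)) ∧
      ((¬ ∃! y : M, φ.Realize (Fin.cons y x : Fin (n + 1) → M)) →
        Structure.funMap (L := morleyLang A) (MFun.fn φ h) x =
        Structure.funMap (L := morleyLang A) (MFun.const ⟨n, φ, h⟩) (default : Fin 0 → M)) := by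
  unfold ax1
  rw [realize_univClosure]
  refine forall_congr' fun x => ?_
  have e : (fun a => (Fin.cases (fnTerm φ h) Term.var :
      Fin (n + 1) → (morleyLang A).Term (Fin n)) a |>.realize x) =
      (Fin.cons (Structure.funMap (L := morleyLang A) (MFun.fn φ h) x) x :
          Fin (n + 1) → M) := by
    funext j
    refine Fin.cases ?_ (fun j => ?_) j
    · simp [fnTerm]
    · simp
  rw [Formula.realize_inf, Formula.realize_imp, Formula.realize_imp, Formula.realize_not,
    LHom.realize_onFormula, realize_existsUnique, Formula.realize_equal, realize_cTerm]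
  have e2 : Formula.Realize (BoundedFormula.subst ((morleyIncl A).onFormula φ)
          (Fin.cases (fnTerm φ h) Term.var : Fin (n + 1) → (morleyLang A).Term (Fin n))) x ↔
      φ.Realize (Fin.cons (Structure.funMap (L := morleyLang A) (MFun.fn φ h) x) x :
          Fin (n + 1) → M) := by
    rw [Formula.Realize, BoundedFormula.realize_subst, e]
    exact LHom.realize_onFormula _ _
  rw [e2]
  rfl

/-- In a model of the theory of a Morleyization the new symbols have their meaning. -/
theorem expands_of_model (h0 : HasFn A) (hM : M ⊨ morleyTheory A) :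
    Expands A M (Structure.funMap (L := morleyLang A) (MFun.const h0)
      (default : Fin 0 → M)) where
  rel_base x := by
    have := LHom.IsExpansionOn.map_onRelation (ϕ := morleyIncl A) (M := M)
      (SetRel.mem : Lset.Relations 2) x
    rw [← this]
    rfl
  rel φ h x := by
    have := hM.realize_of_mem (ax0 φ h) (Or.inl ⟨_, φ, h, rfl⟩)
    exact ((realize_ax0 φ h).1 this x).symm
  fn_pos φ h x hx := by
    have := hM.realize_of_mem (ax1 φ h) (Or.inr ⟨_, φ, h, rfl⟩)
    exact ((realize_ax1 φ h).1 this x).1 hx
  fn_neg φ h x hx := by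
    have := hM.realize_of_mem (ax1 φ h) (Or.inr ⟨_, φ, h, rfl⟩)
    exact ((realize_ax1 φ h).1 this x).2 hx
  const h x := by
    rw [Subsingleton.elim x default]

theorem model_of_expands {c : M} (hE : Expands A M c) : M ⊨ morleyTheory A := by
  refine ⟨?_⟩
  rintro σ (⟨n, φ, h, rfl⟩ | ⟨n, φ, h, rfl⟩)
  · rw [realize_ax0]
    intro x
    exact (hE.rel φ h x).symm
  · rw [realize_ax1]
    intro x
    exact ⟨hE.fn_pos φ h x, fun hx => (hE.fn_neg φ h x hx).trans (hE.const _ _).symm⟩

theorem realize_axC (h : HasFn A) :
    M ⊨ axC h ↔ ∀ x : M, (∀ y : M, ¬ E y x) ↔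
      x = Structure.funMap (L := morleyLang A) (MFun.const h) (default : Fin 0 → M) := by
  unfold axC
  simp only [Sentence.Realize, Formula.Realize, BoundedFormula.realize_all,
    BoundedFormula.realize_iff, BoundedFormula.realize_not, LHom.realize_onBoundedFormula,
    realize_memB, BoundedFormula.realize_bdEqual, realize_cTerm]
  simp [Fin.snoc]

end Realize

/-- The canonical expansion of an `{∈}`-structure. -/
@[instance_reducible]
noncomputable def expStruct (A : Set (FormBit Lset)) (M : Type w) [Lset.Structure M] (c : M) :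
    (morleyLang A).Structure M where
  funMap {n} f x := by
    classical
    exact match n, f, x with
    | _, MFun.base f, _ => Empty.elim f
    | _, MFun.fn φ _, x =>
      if H : ∃! y : M, φ.Realize (Fin.cons y x : Fin (_ + 1) → M) then H.choose else c
    | _, MFun.const _, _ => c
  RelMap {n} R x := match n, R, x with
    | _, MRel.base R, x => Structure.RelMap (L := Lset) R x
    | _, MRel.rel φ _, x => φ.Realize x

theorem expStruct_expansion (A : Set (FormBit Lset)) (M : Type w) [Lset.Structure M] (c : M) :
    letI := expStruct A M c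
    (morleyIncl A).IsExpansionOn M := by
  let _ := expStruct A M c
  exact ⟨fun f x => Empty.elim f, fun R x => rfl⟩

theorem expStruct_expands (A : Set (FormBit Lset)) (M : Type w) [Lset.Structure M] (c : M) :
    letI := expStruct A M c
    Expands A M c := by
  let _ := expStruct A M c
  exact
  { rel_base := fun x => Iff.rfl
    rel := fun φ h x => Iff.rfl
    fn_pos := fun φ h x hx => by
      classical
      have e : Structure.funMap (L := morleyLang A) (MFun.fn φ h) x = hx.choose := by
        change dite _ _ _ = _
        rw [dif_pos hx]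
      rw [e]
      exact hx.choose_spec.1
    fn_neg := fun φ h x hx => by
      classical
      change dite _ _ _ = _
      rw [dif_neg hx]
    const := fun h x => rfl }

end Pool.Agent.Lib.MP_918dbb_lc
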