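import Pool.Agent.Lib.MP_918dbb_lc.Final

/-!
# There is no absolute model companion
-/

universe u₀ u₁ w

namespace Pool.Agent.Lib.MP_918dbb_lc

open FirstOrder FirstOrder.Language

/-- Model completeness for models in a universe implies it for models in the lowest one. -/
theorem IsModelComplete.down {L : Language.{0, 0}} {T : L.Theory} (h : IsModelComplete.{w} T) :
    IsModelComplete.{0} T := by
  intro M N _ _ _ _ hM hN f
  let eM : M ≃ ULift.{w} M := Equiv.ulift.symm
  let eN : N ≃ ULift.{w} N := Equiv.ulift.symm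
  let _ : L.Structure (ULift.{w} M) := eM.inducedStructure
  let _ : L.Structure (ULift.{w} N) := eN.inducedStructure
  let gM : M ≃[L] ULift.{w} M := eM.inducedStructureEquiv
  let gN : N ≃[L] ULift.{w} N := eN.inducedStructureEquiv
  have hM' : ULift.{w} M ⊨ T := StrongHomClass.theory_model gM
  have hN' : ULift.{w} N ⊨ T := StrongHomClass.theory_model gN
  obtain ⟨g, hg⟩ := h (ULift.{w} M) (ULift.{w} N)
    ((gN.toEmbedding.comp f).comp gM.symm.toEmbedding)
  refine ⟨(gN.symm.toElementaryEmbedding.comp g).comp gM.toElementaryEmbedding, ?_⟩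
  intro x
  have h1 : g (gM x) = gN (f x) := by
    rw [hg]
    change gN (f (gM.symm (gM x))) = _
    rw [Language.Equiv.symm_apply_apply]
  change gN.symm (g (gM x)) = f x
  rw [h1, Language.Equiv.symm_apply_apply]

section Main

variable {M₀ : Type u₀} {M₁ : Type u₁} [Lset.Structure M₀] [Lset.Structure M₁]
  {j : M₀ → M₁} {U : Lset.Formula (Fin 1)}

/-- The universal sentence `∀ y ¬R(y)`, with `R` the symbol for `U(y)`. -/
def noU (U : Lset.Formula (Fin 1)) : (morleyLang (sigA U)).Sentence :=
  ∀' ∼(Relations.boundedFormula₁ (L := morleyLang (sigA U))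
    (MRel.rel (theta U (⊤ : Lset.Formula (Fin 0))) (theta_mem U ⊤)) (&0))

theorem noU_isUniversal (U : Lset.Formula (Fin 1)) : (noU U).IsUniversal :=
  (BoundedFormula.IsAtomic.rel _ _).isQF.not.isUniversal.all

theorem realize_noU {M : Type w} [Lset.Structure M] [(morleyLang (sigA U)).Structure M] {c : M}
    (hc : Expands (sigA U) M c) : M ⊨ noU U ↔ ∀ y : M, ¬ U.Realize fun _ => y := by
  unfold noU
  simp only [Sentence.Realize, Formula.Realize, BoundedFormula.realize_all,
    BoundedFormula.realize_not, BoundedFormula.realize_rel₁]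
  refine forall_congr' fun y => not_congr ?_
  refine (hc.rel _ _ _).trans ?_
  rw [realize_theta]
  simp only [Formula.realize_top, and_true]
  apply iff_of_eq
  congr 1

theorem isUniversal_alls {L : Language.{0, 0}} {α : Type} {n : ℕ} {φ : L.BoundedFormula α n}
    (h : φ.IsUniversal) : φ.alls.IsUniversal := by
  induction n with
  | zero => exact h
  | succ n ih => exact ih h.all

theorem not_isAMC [Nonempty M₀] [Nonempty M₁] (hP : Pair j U) (b : Bool)
    (T' : (morleyLang (sigA U)).Theory) :
    ¬ IsAMC.{w} T'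
      ((morleyIncl (sigA U)).onTheory (commonTheory M₀ M₁) ∪ bMorley b (sigA U)) := by
  rintro ⟨hB, hmc⟩
  replace hmc := hmc.down
  have hB' : ∀ ψ : (morleyLang (sigA U)).Sentence, IsBoolUniv ψ →
      (T' ⊨ᵇ ψ ↔ M₀ ⊨ closeC b ψ ∧ M₁ ⊨ closeC b ψ) := by
    intro ψ hψ
    rw [← models_common_iff hP]
    have := Set.ext_iff.1 hB ψ
    simp only [boolUnivPart, Set.mem_ofPred_eq, hψ, true_and] at this
    exact this
  have hF : IsBoolUniv (noU U) := IsBoolUniv.of_universal (noU_isUniversal U)
  have hF' : IsBoolUniv (noU U).not := IsBoolUniv.imp hF IsBoolUniv.falsum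
  -- step 1: a model of `T'` with `noU`
  have h1 : ¬ T' ⊨ᵇ (noU U).not := by
    rw [hB' _ hF']
    rintro ⟨h, -⟩
    rw [realize_closeC_exp] at h
    obtain ⟨c, hc⟩ := exists_okc b hP.zfc₀
    let _ := expStruct (sigA U) M₀ c
    have h' : M₀ ⊨ (noU U).not := h c hc
    rw [Sentence.realize_not] at h'
    exact h' ((realize_noU (expStruct_expands _ _ c)).2 hP.U₀)
  rw [Theory.models_sentence_iff] at h1
  push Not at h1
  obtain ⟨N, hN⟩ := h1
  rw [Sentence.realize_not, not_not] at hN
  -- step 2: `N` embeds into a model of `T'` without `noU`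
  have h2 : ∃ M : Theory.ModelType.{0, 0, 0} (T' ∪ {(noU U).not}),
      Nonempty (N ↪[morleyLang (sigA U)] M) := by
    apply exists_embedding
    intro δ hδ hδN
    by_contra hcon
    push Not at hcon
    obtain ⟨k, δ', hδ', hk⟩ := exists_numbered δ hδ
    set χ : (morleyLang (sigA U)).Sentence := δ'.not.alls with hχ
    have hχu : χ.IsUniversal := isUniversal_alls hδ'.not.isUniversal
    have hχr : ∀ (M : Type) [(morleyLang (sigA U)).Structure M] [Nonempty M],
        M ⊨ χ ↔ ¬ ∃ v : N → M, δ.Realize v := by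
      intro M _ _
      rw [← hk M, hχ, Sentence.Realize, BoundedFormula.realize_alls]
      simp only [BoundedFormula.realize_not, not_exists]
    have h3 : T' ⊨ᵇ (noU U).not.imp χ := by
      rw [Theory.models_sentence_iff]
      intro M
      rw [Sentence.realize_imp]
      intro hM
      rw [hχr M]
      rintro ⟨v, hv⟩
      have : M ⊨ T' ∪ {(noU U).not} :=
        Theory.Model.union M.is_model (Theory.model_singleton_iff.2 hM)
      exact hcon (Theory.ModelType.of _ M) v hv
    rw [hB' _ (IsBoolUniv.imp hF' (IsBoolUniv.of_universal hχu))] at h3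
    have h4 : M₁ ⊨ closeC b χ := by
      rw [realize_closeC_exp]
      intro c hc
      have h5 := (realize_closeC_exp b _).1 h3.2 c hc
      let _ := expStruct (sigA U) M₁ c
      have h6 : M₁ ⊨ (noU U).not.imp χ := h5
      rw [Sentence.realize_imp] at h6
      apply h6
      rw [Sentence.realize_not, realize_noU (expStruct_expands _ _ c)]
      obtain ⟨y, hy⟩ := hP.U₁
      exact fun h => h y hy
    have h5 : T' ⊨ᵇ χ :=
      (hB' _ (IsBoolUniv.of_universal hχu)).2 ⟨closeC_down hP b hχu h4, h4⟩
    have h6 := h5.realize_sentence N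
    rw [hχr N] at h6
    exact h6 ⟨id, hδN⟩
  obtain ⟨M, ⟨f⟩⟩ := h2
  have hM1 : M ⊨ T' := M.is_model.mono Set.subset_union_left
  have hM2 : M ⊨ (noU U).not :=
    M.is_model.realize_of_mem _ (Set.mem_union_right _ rfl)
  obtain ⟨g, -⟩ := hmc N M f
  rw [Sentence.realize_not] at hM2
  exact hM2 ((g.map_sentence _).1 hN)

end Main

end Pool.Agent.Lib.MP_918dbb_lc
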