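import Pool.Agent.Lib.MP_918dbb_lc.Defs

/-!
# Semantics of the definitions
-/

universe w

namespace Pool.Agent.Lib.MP_918dbb_lc

open FirstOrder FirstOrder.Language

section General

variable {τ : Language.{0, 0}} {M : Type w} [τ.Structure M]

theorem realize_univClosure {k : ℕ} (φ : τ.Formula (Fin k)) :
    M ⊨ univClosure φ ↔ ∀ x : Fin k → M, φ.Realize x := by
  unfold univClosure
  rw [Sentence.Realize, BoundedFormula.realize_alls]
  refine forall_congr' fun x => ?_
  exact Formula.realize_relabel_sumInr φ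

theorem realize_existsUnique {n : ℕ} (φ : τ.Formula (Fin (n + 1))) (x : Fin n → M) :
    (existsUnique φ).Realize x ↔ ∃! y : M, φ.Realize (Fin.cons y x : Fin (n + 1) → M) := by
  unfold existsUnique
  rw [Formula.realize_iExsUnique]
  have key : ∀ i : Fin 1 → M,
      ((Formula.relabel (Fin.cases (Sum.inr 0) Sum.inl : Fin (n + 1) → Fin n ⊕ Fin 1) φ).Realize
        (Sum.elim x i)) ↔ φ.Realize (Fin.cons (i 0) x : Fin (n + 1) → M) := by
    intro i
    rw [Formula.realize_relabel]
    apply iff_of_eq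
    congr 1
    funext j
    refine Fin.cases ?_ (fun j => ?_) j
    · simp
    · simp
  simp only [key]
  constructor
  · rintro ⟨i, hi, hu⟩
    refine ⟨i 0, hi, fun y hy => ?_⟩
    have := hu (fun _ => y) hy
    exact congrFun this 0
  · rintro ⟨y, hy, hu⟩
    refine ⟨fun _ => y, hy, fun i hi => ?_⟩
    funext j
    have := hu (i 0) hi
    rw [Subsingleton.elim j 0]
    exact this

end General

section SetSem

variable {M : Type w} [Lset.Structure M]

/-- The membership relation of a `{∈}`-structure. -/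
def E (x y : M) : Prop := Structure.RelMap (L := Lset) SetRel.mem ![x, y]

theorem realize_memF {α : Type} {n : ℕ} (t₁ t₂ : Lset.Term (α ⊕ Fin n)) (v : α → M)
    (xs : Fin n → M) :
    (memF t₁ t₂).Realize v xs ↔
      E (t₁.realize (Sum.elim v xs)) (t₂.realize (Sum.elim v xs)) :=
  BoundedFormula.realize_rel₂

theorem realize_memB {α : Type} {n : ℕ} (i j : Fin n) (v : α → M) (xs : Fin n → M) :
    (memB i j).Realize v xs ↔ E (xs i) (xs j) := by
  unfold memB
  rw [realize_memF]
  simp

theorem realize_eqB {α : Type} {n : ℕ} (i j : Fin n) (v : α → M) (xs : Fin n → M) :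
    (eqB i j : Lset.BoundedFormula α n).Realize v xs ↔ xs i = xs j := by
  unfold eqB
  simp

theorem realize_inst₁ {n m : ℕ} (i : Fin m) (φ : Lset.Formula (Fin (n + 1))) (v : Fin n → M)
    (xs : Fin m → M) :
    (inst₁ i φ).Realize v xs ↔ φ.Realize (Fin.cons (xs i) v : Fin (n + 1) → M) := by
  unfold inst₁
  rw [BoundedFormula.realize_relabel, Formula.Realize]
  apply iff_of_eq
  congr 1
  · funext j
    refine Fin.cases ?_ (fun j => ?_) j
    · simp
    · simp
  · funext j
    exact j.elim0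

theorem realize_inst₂ {n m : ℕ} (i j : Fin m) (φ : Lset.Formula (Fin (n + 2))) (v : Fin n → M)
    (xs : Fin m → M) :
    (inst₂ i j φ).Realize v xs ↔
      φ.Realize (Fin.cons (xs i) (Fin.cons (xs j) v : Fin (n + 1) → M) : Fin (n + 2) → M) := by
  unfold inst₂
  rw [BoundedFormula.realize_relabel, Formula.Realize]
  apply iff_of_eq
  congr 1
  · funext k
    refine Fin.cases ?_ (fun k => ?_) k
    · simp
    · refine Fin.cases ?_ (fun k => ?_) k
      · rfl
      · simp
  · funext j
    exact j.elim0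

theorem realize_axExt : M ⊨ axExt ↔ ∀ x y : M, (∀ z : M, E z x ↔ E z y) → x = y := by
  simp [axExt, Sentence.Realize, Formula.Realize, realize_memB, realize_eqB, Fin.snoc]

theorem realize_axFound : M ⊨ axFound ↔
    ∀ x : M, (∃ y : M, E y x) → ∃ y : M, E y x ∧ ¬ ∃ z : M, E z x ∧ E z y := by
  simp [axFound, Sentence.Realize, Formula.Realize, realize_memB, realize_eqB, Fin.snoc]

theorem realize_axPair : M ⊨ axPair ↔
    ∀ x y : M, ∃ z : M, ∀ t : M, E t z ↔ (t = x ∨ t = y) := by
  simp [axPair, Sentence.Realize, Formula.Realize, realize_memB, realize_eqB, Fin.snoc]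

theorem realize_axUnion : M ⊨ axUnion ↔
    ∀ x : M, ∃ u : M, ∀ z : M, E z u ↔ ∃ y : M, E y x ∧ E z y := by
  simp [axUnion, Sentence.Realize, Formula.Realize, realize_memB, realize_eqB, Fin.snoc]

theorem realize_axPower : M ⊨ axPower ↔
    ∀ x : M, ∃ p : M, ∀ z : M, E z p ↔ ∀ t : M, E t z → E t x := by
  simp [axPower, Sentence.Realize, Formula.Realize, realize_memB, realize_eqB, Fin.snoc]

theorem realize_axInf : M ⊨ axInf ↔
    ∃ x : M, (∃ e : M, E e x ∧ ∀ z : M, ¬ E z e) ∧
      ∀ y : M, E y x → ∃ s : M, E s x ∧ ∀ t : M, E t s ↔ (E t y ∨ t = y) := by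
  simp [axInf, hasEmpty, hasSucc, Sentence.Realize, Formula.Realize, realize_memB, realize_eqB,
    Fin.snoc]

theorem realize_axSep {n : ℕ} (φ : Lset.Formula (Fin (n + 1))) : M ⊨ axSep φ ↔
    ∀ p : Fin n → M, ∀ x : M, ∃ y : M, ∀ z : M,
      E z y ↔ (E z x ∧ φ.Realize (Fin.cons z p : Fin (n + 1) → M)) := by
  unfold axSep
  rw [realize_univClosure]
  refine forall_congr' fun p => ?_
  simp [Formula.Realize, realize_memB, realize_eqB, realize_inst₁, Fin.snoc]

theorem realize_axRepl {n : ℕ} (φ : Lset.Formula (Fin (n + 2))) : M ⊨ axRepl φ ↔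
    ∀ p : Fin n → M, ∀ a : M,
      (∀ x : M, E x a → ∃ y : M,
        φ.Realize (Fin.cons x (Fin.cons y p : Fin (n + 1) → M) : Fin (n + 2) → M) ∧
        ∀ y' : M, φ.Realize (Fin.cons x (Fin.cons y' p : Fin (n + 1) → M) : Fin (n + 2) → M) →
          y' = y) →
      ∃ b : M, ∀ y : M, E y b ↔ ∃ x : M, E x a ∧
        φ.Realize (Fin.cons x (Fin.cons y p : Fin (n + 1) → M) : Fin (n + 2) → M) := by
  unfold axRepl
  rw [realize_univClosure]
  refine forall_congr' fun p => ?_
  simp [isFunctional, hasImage, Formula.Realize, realize_memB, realize_eqB, realize_inst₂,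
    Fin.snoc]

theorem realize_axChoice : M ⊨ axChoice ↔
    ∀ x : M, ((∀ y : M, E y x → ∃ z : M, E z y) ∧
      (∀ y y' : M, ((E y x ∧ E y' x) ∧ ∃ z : M, E z y ∧ E z y') → y = y')) →
      ∃ c : M, ∀ y : M, E y x → ∃ z : M, (E z y ∧ E z c) ∧
        ∀ z' : M, (E z' y ∧ E z' c) → z' = z := by
  simp [axChoice, allNonempty, allDisjoint, meetOnce, Sentence.Realize, Formula.Realize,
    realize_memB, realize_eqB, Fin.snoc]

end SetSem

end Pool.Agent.Lib.MP_918dbb_lc
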