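import Pool.Agent.Lib.MP_918dbb_lc.Sem
import Mathlib.Tactic.FinCases

/-!
# Elimination of the defined symbols of a Morleyization
-/

universe w

namespace Pool.Agent.Lib.MP_918dbb_lc

open FirstOrder FirstOrder.Language

variable {A : Set (FormBit Lset)}

/-- The semantic content of the theory of a Morleyization, with `c` the value of `c_τ`. -/
structure Expands (A : Set (FormBit Lset)) (M : Type w) [Lset.Structure M]
    [(morleyLang A).Structure M] (c : M) : Prop where
  rel_base : ∀ (x : Fin 2 → M), Structure.RelMap (L := morleyLang A) (MRel.base SetRel.mem) x ↔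
    Structure.RelMap (L := Lset) SetRel.mem x
  rel : ∀ {n : ℕ} (φ : Lset.Formula (Fin (n + 1))) (h : (⟨n, φ, false⟩ : FormBit Lset) ∈ A)
    (x : Fin (n + 1) → M),
    Structure.RelMap (L := morleyLang A) (MRel.rel φ h) x ↔ φ.Realize x
  fn_pos : ∀ {n : ℕ} (φ : Lset.Formula (Fin (n + 1))) (h : (⟨n, φ, true⟩ : FormBit Lset) ∈ A)
    (x : Fin n → M), (∃! y : M, φ.Realize (Fin.cons y x : Fin (n + 1) → M)) →
    φ.Realize (Fin.cons (Structure.funMap (L := morleyLang A) (MFun.fn φ h) x) x :
      Fin (n + 1) → M)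
  fn_neg : ∀ {n : ℕ} (φ : Lset.Formula (Fin (n + 1))) (h : (⟨n, φ, true⟩ : FormBit Lset) ∈ A)
    (x : Fin n → M), (¬ ∃! y : M, φ.Realize (Fin.cons y x : Fin (n + 1) → M)) →
    Structure.funMap (L := morleyLang A) (MFun.fn φ h) x = c
  const : ∀ (h : ∃ (n : ℕ) (φ : Lset.Formula (Fin (n + 1))),
    (⟨n, φ, true⟩ : FormBit Lset) ∈ A) (x : Fin 0 → M),
    Structure.funMap (L := morleyLang A) (MFun.const h) x = c

/-- The graph of a function symbol: variables `z_i` (left), output (right `0`), the constant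
(right `1`). -/
noncomputable def fnGraph : ∀ {l : ℕ}, MFun (τ := Lset) A l → Lset.Formula (Fin l ⊕ Fin 2)
  | _, MFun.base f => (Empty.elim f)
  | _, MFun.fn φ _ =>
      (((existsUnique φ).relabel Sum.inl) ⊓
        (φ.relabel (Fin.cases (Sum.inr 0) Sum.inl))) ⊔
      (((existsUnique φ).relabel Sum.inl).not ⊓
        (Term.equal (Term.var (Sum.inr 0)) (Term.var (Sum.inr 1))))
  | _, MFun.const _ => Term.equal (Term.var (Sum.inr 0)) (Term.var (Sum.inr 1))

/-- The interpretation of a relation symbol. -/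
def relGraph : ∀ {l : ℕ}, MRel (τ := Lset) A l → Lset.Formula (Fin l)
  | _, MRel.base R => Relations.formula (L := Lset) R Term.var
  | _, MRel.rel φ _ => φ

/-- Translation of terms. -/
noncomputable def trTerm {β : Type} : (morleyLang A).Term β → Lset.Formula (β ⊕ Fin 2)
  | .var b => Term.equal (Term.var (Sum.inr 0)) (Term.var (Sum.inl b))
  | @Term.func _ _ l f ts =>
      Formula.iExs (Fin l)
        ((Formula.iInf fun i : Fin l => (trTerm (ts i)).relabel
            (Sum.elim (Sum.inl ∘ Sum.inl) ![Sum.inr i, Sum.inl (Sum.inr 1)] :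
              β ⊕ Fin 2 → (β ⊕ Fin 2) ⊕ Fin l)) ⊓
          ((fnGraph f).relabel (Sum.elim Sum.inr (Sum.inl ∘ Sum.inr) :
            Fin l ⊕ Fin 2 → (β ⊕ Fin 2) ⊕ Fin l)))

/-- Translation of a formula applied to terms. -/
noncomputable def subTerms {α : Type} {n l : ℕ} (ts : Fin l → (morleyLang A).Term (α ⊕ Fin n))
    (G : Lset.Formula (Fin l)) : Lset.BoundedFormula (α ⊕ Fin 1) n :=
  BoundedFormula.relabel (id : (α ⊕ Fin 1) ⊕ Fin n → (α ⊕ Fin 1) ⊕ Fin n)
    (Formula.iExs (Fin l)
      ((Formula.iInf fun i : Fin l => (trTerm (ts i)).relabel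
          (Sum.elim (Sum.elim (Sum.inl ∘ Sum.inl ∘ Sum.inl) (Sum.inl ∘ Sum.inr))
            ![Sum.inr i, Sum.inl (Sum.inl (Sum.inr 0))] :
              (α ⊕ Fin n) ⊕ Fin 2 → ((α ⊕ Fin 1) ⊕ Fin n) ⊕ Fin l)) ⊓
        (G.relabel (Sum.inr : Fin l → ((α ⊕ Fin 1) ⊕ Fin n) ⊕ Fin l))))

/-- Translation of formulas. -/
noncomputable def trBF {α : Type} :
    ∀ {n : ℕ}, (morleyLang A).BoundedFormula α n → Lset.BoundedFormula (α ⊕ Fin 1) n
  | _, .falsum => ⊥
  | _, .equal t₁ t₂ => subTerms ![t₁, t₂] (Term.equal (Term.var 0) (Term.var 1))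
  | _, .rel R ts => subTerms ts (relGraph R)
  | _, .imp φ ψ => (trBF φ).imp (trBF ψ)
  | _, .all φ => (trBF φ).all

section Realize

variable {M : Type w} [Lset.Structure M] [(morleyLang A).Structure M] {c : M}

theorem realize_fnGraph (hE : Expands A M c) {l : ℕ} (f : MFun (τ := Lset) A l)
    (z : Fin l → M) (y : M) :
    (fnGraph f).Realize (Sum.elim z ![y, c]) ↔
      y = Structure.funMap (L := morleyLang A) f z := by
  cases f with
  | base f => exact Empty.elim f
  | fn φ h =>
    have e1 : (Sum.elim z ![y, c]) ∘ (Fin.cases (Sum.inr 0) Sum.inl : Fin (l + 1) → _) =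
        (Fin.cons y z : Fin (l + 1) → M) := by
      funext j
      refine Fin.cases ?_ (fun j => ?_) j
      · simp
      · simp
    simp only [fnGraph, Formula.realize_sup, Formula.realize_inf, Formula.realize_relabel,
      Sum.elim_comp_inl, Formula.realize_not, Formula.realize_equal, Term.realize_var,
      Sum.elim_inr, realize_existsUnique, e1]
    by_cases hu : ∃! y : M, φ.Realize (Fin.cons y z : Fin (l + 1) → M)
    · have hp := hE.fn_pos φ h z hu
      simp only [hu, not_true, false_and, or_false, true_and]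
      constructor
      · intro hy
        exact hu.unique hy hp
      · rintro rfl
        exact hp
    · simp only [hu, not_false_eq_true, false_and, false_or, true_and, hE.fn_neg φ h z hu]
      simp
  | const h =>
    simp only [fnGraph, Formula.realize_equal, Term.realize_var, Sum.elim_inr, hE.const h z]
    simp

theorem realize_relGraph (hE : Expands A M c) {l : ℕ} (R : MRel (τ := Lset) A l)
    (z : Fin l → M) :
    (relGraph R).Realize z ↔ Structure.RelMap (L := morleyLang A) R z := by
  cases R with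
  | base R =>
    cases R
    rw [hE.rel_base z]
    exact Formula.realize_rel (L := Lset)
  | rel φ h =>
    rw [hE.rel φ h z]
    rfl

theorem realize_trTerm (hE : Expands A M c) {β : Type} (t : (morleyLang A).Term β)
    (v : β → M) (y : M) :
    (trTerm t).Realize (Sum.elim v ![y, c]) ↔ y = t.realize v := by
  induction t generalizing y with
  | var b => simp [trTerm]
  | @func l f ts ih =>
    have e1 : ∀ (z : Fin l → M) (i : Fin l),
        Sum.elim (Sum.elim v ![y, c]) z ∘
          (Sum.elim (Sum.inl ∘ Sum.inl) ![Sum.inr i, Sum.inl (Sum.inr 1)] :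
              β ⊕ Fin 2 → (β ⊕ Fin 2) ⊕ Fin l) = Sum.elim v ![z i, c] := by
      intro z i
      funext j
      rcases j with j | j
      · simp
      · fin_cases j <;> simp
    have e2 : ∀ (z : Fin l → M),
        Sum.elim (Sum.elim v ![y, c]) z ∘
          (Sum.elim Sum.inr (Sum.inl ∘ Sum.inr) :
            Fin l ⊕ Fin 2 → (β ⊕ Fin 2) ⊕ Fin l) = Sum.elim z ![y, c] := by
      intro z
      funext j
      rcases j with j | j <;> simp
    simp only [trTerm, Formula.realize_iExs, Formula.realize_inf, Formula.realize_iInf,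
      Formula.realize_relabel, e1, e2, ih, Term.realize]
    constructor
    · rintro ⟨z, hz, hf⟩
      have hf' := (realize_fnGraph hE f z y).1 hf
      rw [hf', show z = fun i => (ts i).realize v from funext hz]
    · rintro rfl
      exact ⟨fun i => (ts i).realize v, fun _ => rfl, (realize_fnGraph hE f _ _).2 rfl⟩

theorem realize_subTerms (hE : Expands A M c) {α : Type} {n l : ℕ}
    (ts : Fin l → (morleyLang A).Term (α ⊕ Fin n)) (G : Lset.Formula (Fin l))
    (v : α → M) (xs : Fin n → M) :
    (subTerms ts G).Realize (Sum.elim v fun _ => c) xs ↔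
      G.Realize fun i => (ts i).realize (Sum.elim v xs) := by
  have e0 : (Sum.elim (Sum.elim v fun _ : Fin 1 => c) xs : (α ⊕ Fin 1) ⊕ Fin n → M) =
      Sum.elim (Sum.elim v fun _ : Fin 1 => c) (xs ∘ Fin.castAdd 0) ∘ id := by
    funext j
    rcases j with j | j <;> simp
  have e1 : ∀ (z : Fin l → M) (i : Fin l),
      Sum.elim (Sum.elim (Sum.elim v fun _ : Fin 1 => c) xs) z ∘
        (Sum.elim (Sum.elim (Sum.inl ∘ Sum.inl ∘ Sum.inl) (Sum.inl ∘ Sum.inr))
            ![Sum.inr i, Sum.inl (Sum.inl (Sum.inr 0))] :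
              (α ⊕ Fin n) ⊕ Fin 2 → ((α ⊕ Fin 1) ⊕ Fin n) ⊕ Fin l) =
        Sum.elim (Sum.elim v xs) ![z i, c] := by
    intro z i
    funext j
    rcases j with (j | j) | j
    · simp
    · simp
    · fin_cases j <;> simp
  unfold subTerms
  rw [BoundedFormula.realize_relabel, ← e0]
  rw [Formula.boundedFormula_realize_eq_realize]
  simp only [Formula.realize_iExs, Formula.realize_inf, Formula.realize_iInf,
      Formula.realize_relabel, e1, realize_trTerm hE, Sum.elim_comp_inr]
  constructor
  · rintro ⟨z, hz, h⟩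
    rwa [show z = fun i => (ts i).realize (Sum.elim v xs) from funext hz] at h
  · intro h
    exact ⟨fun i => (ts i).realize (Sum.elim v xs), fun _ => rfl, h⟩

theorem realize_trBF (hE : Expands A M c) {α : Type} {n : ℕ}
    (ψ : (morleyLang A).BoundedFormula α n) (v : α → M) (xs : Fin n → M) :
    (trBF ψ).Realize (Sum.elim v fun _ => c) xs ↔ ψ.Realize v xs := by
  induction ψ with
  | falsum => rfl
  | equal t₁ t₂ =>
    simp [trBF, realize_subTerms hE, BoundedFormula.Realize]
  | rel R ts =>
    simp only [trBF, realize_subTerms hE, BoundedFormula.Realize]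
    exact realize_relGraph hE R _
  | imp _ _ ih₁ ih₂ =>
    simp [trBF, ih₁, ih₂]
  | all _ ih =>
    simp [trBF, ih]

end Realize

end Pool.Agent.Lib.MP_918dbb_lc
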