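import Pool.Agent.Lib.MP_918dbb_lc.Univ

/-!
# The least universe
-/

universe u

namespace Pool.Agent.Lib.MP_918dbb_lc

open FirstOrder FirstOrder.Language

variable {C : Set ZFSet.{u}}

theorem pairIn_iff (hC : UClass C) (z t f : C) : PairIn z t f ↔ ZFSet.pair z.1 t.1 ∈ f.1 := by
  have key : ∀ p : C, (∀ q : C, E q p ↔
      ((∀ r : C, E r q ↔ r = z) ∨ (∀ r : C, E r q ↔ (r = z ∨ r = t)))) ↔
      p.1 = ZFSet.pair z.1 t.1 := by
    intro p
    have h1 : ∀ q : C, (∀ r : C, E r q ↔ r = z) ↔ q.1 = {z.1} := by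
      intro q
      constructor
      · intro h
        ext r
        rw [ZFSet.mem_singleton]
        constructor
        · intro hr
          exact congrArg Subtype.val ((h ⟨r, hC.trans _ q.2 r hr⟩).1 hr)
        · rintro rfl
          exact (h z).2 rfl
      · intro h r
        rw [E_iff, h, ZFSet.mem_singleton, Subtype.ext_iff]
    have h2 : ∀ q : C, (∀ r : C, E r q ↔ (r = z ∨ r = t)) ↔ q.1 = {z.1, t.1} := by
      intro q
      constructor
      · intro h
        ext r
        rw [ZFSet.mem_pair]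
        constructor
        · intro hr
          rcases (h ⟨r, hC.trans _ q.2 r hr⟩).1 hr with h' | h'
          · exact Or.inl (congrArg Subtype.val h')
          · exact Or.inr (congrArg Subtype.val h')
        · rintro (rfl | rfl)
          · exact (h z).2 (Or.inl rfl)
          · exact (h t).2 (Or.inr rfl)
      · intro h r
        rw [E_iff, h, ZFSet.mem_pair, Subtype.ext_iff, Subtype.ext_iff]
    simp only [h1, h2]
    simp only [E_iff]
    have hs1 : ({z.1} : ZFSet) ∈ C := by
      have := hC.pr _ z.2 _ z.2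
      rwa [ZFSet.pair_eq_singleton] at this
    have hs2 : ({z.1, t.1} : ZFSet) ∈ C := hC.pr _ z.2 _ t.2
    constructor
    · intro h
      ext q
      unfold ZFSet.pair
      rw [ZFSet.mem_pair]
      constructor
      · intro hq
        exact (h ⟨q, hC.trans _ p.2 q hq⟩).1 hq
      · rintro (rfl | rfl)
        · exact (h ⟨_, hs1⟩).2 (Or.inl rfl)
        · exact (h ⟨_, hs2⟩).2 (Or.inr rfl)
    · intro h q
      rw [h]
      unfold ZFSet.pair
      rw [ZFSet.mem_pair]
  unfold PairIn
  simp only [key]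
  constructor
  · rintro ⟨p, hp, h⟩
    rw [← h]
    exact hp
  · intro h
    exact ⟨⟨_, hC.pair_mem z.2 t.2⟩, h, rfl⟩

theorem omega_subset {w : ZFSet.{u}} (h0 : ∅ ∈ w) (h1 : ∀ y ∈ w, insert y y ∈ w) :
    ZFSet.omega ⊆ w := by
  have key : ∀ n : ℕ, ZFSet.mk (PSet.ofNat.{u} n) ∈ w := by
    intro n
    induction n with
    | zero => exact h0
    | succ n ih => exact h1 _ ih
  intro x hx
  induction x using Quotient.inductionOn with
  | h x =>
    obtain ⟨n, hn⟩ := hx
    have : (⟦x⟧ : ZFSet) = ZFSet.mk (PSet.ofNat.{u} n.down) := Quotient.sound hn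
    rw [this]
    exact key _

theorem isU_iff (hC : UClass C) (a : C) : IsU a ↔ UClass {z : ZFSet | z ∈ a.1} := by
  have ha : ∀ z ∈ a.1, z ∈ C := hC.trans _ a.2
  constructor
  · intro h
    have htr : ∀ x ∈ a.1, ∀ z ∈ x, z ∈ a.1 := by
      intro x hx z hz
      exact h.c1 ⟨x, ha x hx⟩ hx ⟨z, hC.trans _ (ha x hx) z hz⟩ hz
    have hpow : ∀ x ∈ a.1, x.powerset ∈ a.1 := by
      intro x hx
      obtain ⟨p, hp, hp'⟩ := h.c4 ⟨x, ha x hx⟩ hx
      have : p.1 = x.powerset := by
        ext z
        rw [ZFSet.mem_powerset]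
        constructor
        · intro hz t ht
          have hzC : z ∈ C := hC.trans _ p.2 z hz
          exact (hp' ⟨z, hzC⟩).1 hz ⟨t, hC.trans _ hzC t ht⟩ ht
        · intro hz
          exact (hp' ⟨z, hC.sub (ha x hx) hz⟩).2 fun t ht => hz ht
      rw [← this]
      exact hp
    refine ⟨htr, ?_, ?_, hpow, ?_, ?_⟩
    · obtain ⟨w, hw, ⟨e, he, he'⟩, hw'⟩ := h.c2
      have he0 : e.1 = ∅ := by
        rw [ZFSet.eq_empty]
        intro z hz
        exact he' ⟨z, hC.trans _ e.2 z hz⟩ hz
      have hsub : ZFSet.omega ⊆ w.1 := by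
        apply omega_subset
        · rw [← he0]; exact he
        · intro y hy
          have hyC : y ∈ C := hC.trans _ w.2 y hy
          obtain ⟨s, hs, hs'⟩ := hw' ⟨y, hyC⟩ hy
          have : s.1 = insert y y := by
            ext t
            rw [ZFSet.mem_insert_iff]
            constructor
            · intro ht
              rcases (hs' ⟨t, hC.trans _ s.2 t ht⟩).1 ht with h' | h'
              · exact Or.inr h'
              · exact Or.inl (congrArg Subtype.val h')
            · rintro (rfl | ht)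
              · exact (hs' ⟨t, hyC⟩).2 (Or.inr rfl)
              · exact (hs' ⟨t, hC.trans _ hyC t ht⟩).2 (Or.inl ht)
          rw [← this]
          exact hs
      exact htr _ (hpow _ hw) _ (ZFSet.mem_powerset.2 hsub)
    · intro x hx y hy
      obtain ⟨z, hz, hz'⟩ := h.c3 ⟨x, ha x hx⟩ ⟨y, ha y hy⟩ ⟨hx, hy⟩
      have : z.1 = {x, y} := by
        ext t
        rw [ZFSet.mem_pair]
        constructor
        · intro ht
          rcases (hz' ⟨t, hC.trans _ z.2 t ht⟩).1 ht with h' | h'
          · exact Or.inl (congrArg Subtype.val h')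
          · exact Or.inr (congrArg Subtype.val h')
        · rintro (rfl | rfl)
          · exact (hz' ⟨t, ha t hx⟩).2 (Or.inl rfl)
          · exact (hz' ⟨t, ha t hy⟩).2 (Or.inr rfl)
      change ({x, y} : ZFSet) ∈ a.1
      rw [← this]
      exact hz
    · intro x hx
      obtain ⟨s, hs, hs'⟩ := h.c5 ⟨x, ha x hx⟩ hx
      have : s.1 = ZFSet.sUnion x := by
        ext z
        rw [ZFSet.mem_sUnion]
        constructor
        · intro hz
          obtain ⟨y, hy, hy'⟩ := (hs' ⟨z, hC.trans _ s.2 z hz⟩).1 hz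
          exact ⟨y.1, hy, hy'⟩
        · rintro ⟨y, hy, hy'⟩
          have hyC : y ∈ C := hC.trans _ (ha x hx) y hy
          exact (hs' ⟨z, hC.trans _ hyC z hy'⟩).2 ⟨⟨y, hyC⟩, hy, hy'⟩
      change ZFSet.sUnion x ∈ a.1
      rw [← this]
      exact hs
    · intro x hx f hf
      have hf' : ∀ z ∈ x, f z ∈ a.1 := hf
      obtain ⟨F, hF, hF'⟩ := hC.img x (ha x hx) (fun z => ZFSet.pair z (f z)) (by
        intro z hz
        exact hC.pair_mem (hC.trans _ (ha x hx) z hz) (ha _ (hf' z hz)))
      have hpF : ∀ z ∈ x, ∀ t, ZFSet.pair z t ∈ F ↔ t = f z := by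
        intro z hz t
        rw [hF']
        constructor
        · rintro ⟨z', hz', h'⟩
          rw [ZFSet.pair_inj] at h'
          rw [← h'.2, h'.1]
        · rintro rfl
          exact ⟨z, hz, rfl⟩
      obtain ⟨b, hb, hb'⟩ := h.c6 ⟨x, ha x hx⟩ hx ⟨F, hF⟩ (by
        rintro z hz
        have hz' : z.1 ∈ x := hz
        refine ⟨⟨f z.1, ha _ (hf' _ hz')⟩, ⟨hf' _ hz', ?_⟩, ?_⟩
        · rw [pairIn_iff hC]
          exact (hpF _ hz' _).2 rfl
        · rintro t' ⟨-, ht'⟩
          rw [pairIn_iff hC] at ht'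
          exact Subtype.ext ((hpF _ hz' _).1 ht'))
      refine ⟨b.1, hb, fun t => ?_⟩
      constructor
      · intro ht
        obtain ⟨z, hz, -, hzt⟩ := (hb' ⟨t, hC.trans _ b.2 t ht⟩).1 ht
        rw [pairIn_iff hC] at hzt
        exact ⟨z.1, hz, ((hpF _ hz _).1 hzt).symm⟩
      · rintro ⟨z, hz, rfl⟩
        refine (hb' ⟨f z, ha _ (hf' z hz)⟩).2 ⟨⟨z, hC.trans _ (ha x hx) z hz⟩, hz, hf' z hz, ?_⟩
        rw [pairIn_iff hC]
        exact (hpF _ hz _).2 rfl
  · intro h
    refine ⟨?_, ?_, ?_, ?_, ?_, ?_⟩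
    · intro x hx z hz
      exact h.trans _ hx _ hz
    · refine ⟨⟨ZFSet.omega, ha _ h.inf⟩, h.inf, ⟨⟨∅, hC.empty_mem⟩, ZFSet.omega_zero,
        fun z hz => ZFSet.notMem_empty _ hz⟩, ?_⟩
      intro y hy
      have h1 : (insert y.1 y.1 : ZFSet) ∈ ZFSet.omega := ZFSet.omega_succ hy
      refine ⟨⟨insert y.1 y.1, hC.trans _ hC.inf _ h1⟩, h1, fun t => ?_⟩
      rw [E_iff, ZFSet.mem_insert_iff, Subtype.ext_iff, or_comm]
      rfl
    · rintro x y ⟨hx, hy⟩
      refine ⟨⟨{x.1, y.1}, hC.pr _ x.2 _ y.2⟩, h.pr _ hx _ hy, fun t => ?_⟩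
      rw [E_iff, ZFSet.mem_pair, Subtype.ext_iff, Subtype.ext_iff]
    · intro x hx
      refine ⟨⟨x.1.powerset, hC.pow _ x.2⟩, h.pow _ hx, fun z => ?_⟩
      rw [E_iff, ZFSet.mem_powerset]
      constructor
      · intro h t ht
        exact h ht
      · intro h t ht
        exact h ⟨t, hC.trans _ z.2 t ht⟩ ht
    · intro x hx
      refine ⟨⟨ZFSet.sUnion x.1, hC.sUn _ x.2⟩, h.sUn _ hx, fun z => ?_⟩
      rw [E_iff, ZFSet.mem_sUnion]
      constructor
      · rintro ⟨y, hy, hz⟩
        exact ⟨⟨y, hC.trans _ x.2 y hy⟩, hy, hz⟩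
      · rintro ⟨y, hy, hz⟩
        exact ⟨y, hy, hz⟩
    · intro x hx f hf
      classical
      simp only [pairIn_iff hC] at hf ⊢
      let g : ZFSet → ZFSet := fun z => if h : ∃ t : C, t.1 ∈ a.1 ∧ ZFSet.pair z t.1 ∈ f.1 then
        h.choose.1 else ∅
      have hg : ∀ z, (∃ t : C, t.1 ∈ a.1 ∧ ZFSet.pair z t.1 ∈ f.1) →
          g z ∈ a.1 ∧ ZFSet.pair z (g z) ∈ f.1 := by
        intro z hz
        simp only [g, dif_pos hz]
        exact hz.choose_spec
      have hgx : ∀ z ∈ x.1, g z ∈ a.1 ∧ ZFSet.pair z (g z) ∈ f.1 := by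
        intro z hz
        obtain ⟨t, ht, -⟩ := hf ⟨z, hC.trans _ x.2 z hz⟩ hz
        exact hg z ⟨t, ht⟩
      obtain ⟨b, hb, hb'⟩ := h.img x.1 hx g fun z hz => (hgx z hz).1
      refine ⟨⟨b, ha _ hb⟩, hb, fun t => ?_⟩
      rw [E_iff, hb']
      constructor
      · rintro ⟨z, hz, hzt⟩
        refine ⟨⟨z, hC.trans _ x.2 z hz⟩, hz, ?_⟩
        have := hgx z hz
        rw [hzt] at this
        exact this
      · rintro ⟨z, hz, ht⟩
        refine ⟨z.1, hz, ?_⟩
        obtain ⟨t₀, -, hu⟩ := hf z hz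
        have h1 := hgx z.1 hz
        have h2 := hu ⟨g z.1, ha _ h1.1⟩ h1
        have h3 := hu t ht
        rw [h3, ← h2]

/-! ### Existence of a universe in `ZFSet.{1}` -/

/-- The hereditarily small sets. -/
def HS : Set ZFSet.{1} := {x | x.Hereditarily fun y => Small.{0} y}

theorem mem_HS {x : ZFSet.{1}} : x ∈ HS ↔ Small.{0} x ∧ ∀ y ∈ x, y ∈ HS := by
  change ZFSet.Hereditarily _ x ↔ _
  rw [ZFSet.hereditarily_iff]
  rfl

theorem small_of_sub {x y : ZFSet.{1}} (h : y ⊆ x) (hx : Small.{0} x) : Small.{0} y := by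
  have hinj : Function.Injective (fun z : y => (⟨z.1, h z.2⟩ : x)) := by
    intro a b hab
    apply Subtype.ext
    exact congrArg (fun w : x => w.1) hab
  exact small_of_injective hinj

theorem HS_sub {x y : ZFSet.{1}} (h : y ⊆ x) (hx : x ∈ HS) : y ∈ HS := by
  rw [mem_HS] at hx ⊢
  exact ⟨small_of_sub h hx.1, fun z hz => hx.2 z (h hz)⟩

theorem uclass_HS : UClass HS where
  trans x hx z hz := (mem_HS.1 hx).2 z hz
  inf := by
    rw [mem_HS]
    have hom : ∀ x ∈ ZFSet.omega.{1}, ∃ n : ℕ, x = ZFSet.mk (PSet.ofNat.{1} n) := by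
      intro x hx
      induction x using Quotient.inductionOn with
      | h x =>
        obtain ⟨n, hn⟩ := hx
        exact ⟨n.down, Quotient.sound hn⟩
    have hom' : ∀ n : ℕ, ZFSet.mk (PSet.ofNat.{1} n) ∈ ZFSet.omega.{1} := by
      intro n
      induction n with
      | zero => exact ZFSet.omega_zero
      | succ n ih => exact ZFSet.omega_succ ih
    constructor
    · have hsur : Function.Surjective (fun n : ℕ =>
          (⟨ZFSet.mk (PSet.ofNat.{1} n), hom' n⟩ : ZFSet.omega.{1})) := by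
        rintro ⟨x, hx⟩
        obtain ⟨n, rfl⟩ := hom x hx
        exact ⟨n, rfl⟩
      exact small_of_surjective hsur
    · intro x hx
      obtain ⟨n, rfl⟩ := hom x hx
      clear hx
      induction n with
      | zero =>
        rw [mem_HS]
        constructor
        · have : IsEmpty (ZFSet.mk (PSet.ofNat.{1} 0)) :=
            ⟨fun z => ZFSet.notMem_empty z.1 z.2⟩
          exact small_of_injective (Function.injective_of_subsingleton
            (fun _ : (ZFSet.mk (PSet.ofNat.{1} 0)) => (0 : ℕ)))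
        · intro y hy
          exact absurd hy (ZFSet.notMem_empty y)
      | succ n ih =>
        have hins : ∀ y, y ∈ ZFSet.mk (PSet.ofNat.{1} (n + 1)) ↔
            y = ZFSet.mk (PSet.ofNat.{1} n) ∨ y ∈ ZFSet.mk (PSet.ofNat.{1} n) := by
          intro y
          exact ZFSet.mem_insert_iff (x := y) (y := ZFSet.mk (PSet.ofNat.{1} n))
            (z := ZFSet.mk (PSet.ofNat.{1} n))
        rw [mem_HS] at ih ⊢
        constructor
        · have := ih.1
          let e := equivShrink.{0} (ZFSet.mk (PSet.ofNat.{1} n))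
          have hsur : Function.Surjective
              (fun o : Option (Shrink.{0} (ZFSet.mk (PSet.ofNat.{1} n))) =>
              (match o with
                | none => ⟨ZFSet.mk (PSet.ofNat.{1} n), (hins _).2 (Or.inl rfl)⟩
                | some z => ⟨(e.symm z).1, (hins _).2 (Or.inr (e.symm z).2)⟩ :
                  (ZFSet.mk (PSet.ofNat.{1} (n + 1))))) := by
            rintro ⟨y, hy⟩
            rcases (hins y).1 hy with rfl | h
            · exact ⟨none, rfl⟩
            · refine ⟨some (e ⟨y, h⟩), ?_⟩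
              simp
          exact small_of_surjective hsur
        · intro y hy
          rcases (hins y).1 hy with rfl | h
          · rw [mem_HS]
            exact ih
          · exact ih.2 y h
  pr x hx y hy := by
    rw [mem_HS]
    constructor
    · have hsur : Function.Surjective (fun b : Bool =>
          (if b then ⟨x, by simp⟩ else ⟨y, by simp⟩ : ({x, y} : ZFSet.{1}))) := by
        rintro ⟨z, hz⟩
        rcases ZFSet.mem_pair.1 hz with rfl | rfl
        · exact ⟨true, rfl⟩
        · exact ⟨false, rfl⟩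
      exact small_of_surjective hsur
    · intro z hz
      rcases ZFSet.mem_pair.1 hz with rfl | rfl
      · exact hx
      · exact hy
  pow x hx := by
    rw [mem_HS]
    constructor
    · have := (mem_HS.1 hx).1
      have hinj : Function.Injective (fun z : x.powerset => ({y : x | y.1 ∈ z.1} : Set x)) := by
        rintro ⟨a, ha⟩ ⟨b, hb⟩ hab
        apply Subtype.ext
        ext y
        have ha' := ZFSet.mem_powerset.1 ha
        have hb' := ZFSet.mem_powerset.1 hb
        constructor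
        · intro hy
          exact (Set.ext_iff.1 hab ⟨y, ha' hy⟩).1 hy
        · intro hy
          exact (Set.ext_iff.1 hab ⟨y, hb' hy⟩).2 hy
      exact small_of_injective hinj
    · intro z hz
      exact HS_sub (ZFSet.mem_powerset.1 hz) hx
  sUn x hx := by
    rw [mem_HS]
    have hx' := mem_HS.1 hx
    constructor
    · have h1 := hx'.1
      have h2 : ∀ y : x, Small.{0} y.1 := fun y => (mem_HS.1 (hx'.2 y.1 y.2)).1
      have hsur : Function.Surjective (fun p : Σ y : x, y.1 =>
          (⟨p.2.1, ZFSet.mem_sUnion.2 ⟨p.1.1, p.1.2, p.2.2⟩⟩ : ZFSet.sUnion x)) := by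
        rintro ⟨z, hz⟩
        obtain ⟨y, hy, hzy⟩ := ZFSet.mem_sUnion.1 hz
        exact ⟨⟨⟨y, hy⟩, ⟨z, hzy⟩⟩, rfl⟩
      exact small_of_surjective hsur
    · intro z hz
      obtain ⟨y, hy, hzy⟩ := ZFSet.mem_sUnion.1 hz
      exact (mem_HS.1 (hx'.2 y hy)).2 z hzy
  img x hx f hf := by
    have hx' := mem_HS.1 hx
    have := hx'.1
    refine ⟨ZFSet.range (fun z : x => f z.1), ?_, fun t => ?_⟩
    · rw [mem_HS]
      constructor
      · have hsur : Function.Surjective (fun z : x =>
            (⟨f z.1, ZFSet.mem_range.2 ⟨z, rfl⟩⟩ : ZFSet.range (fun z : x => f z.1))) := by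
          rintro ⟨y, hy⟩
          obtain ⟨z, hz⟩ := ZFSet.mem_range.1 hy
          exact ⟨z, Subtype.ext hz⟩
        exact small_of_surjective hsur
      · intro y hy
        obtain ⟨z, rfl⟩ := ZFSet.mem_range.1 hy
        exact hf z.1 z.2
    · rw [ZFSet.mem_range]
      constructor
      · rintro ⟨z, rfl⟩
        exact ⟨z.1, z.2, rfl⟩
      · rintro ⟨z, hz, rfl⟩
        exact ⟨⟨z, hz⟩, rfl⟩

end Pool.Agent.Lib.MP_918dbb_lc
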