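import Pool.Agent.Lib.MP_918dbb_lc.NoAMC
import Mathlib.SetTheory.ZFC.Basic
import Mathlib.Logic.Small.Set
import Mathlib.Tactic.Use

/-!
# Universes inside `ZFSet` are models of `ZFC`
-/

universe u

namespace Pool.Agent.Lib.MP_918dbb_lc

open FirstOrder FirstOrder.Language

/-- A class of sets closed under the operations of a Grothendieck universe. -/
structure UClass (C : Set ZFSet.{u}) : Prop where
  trans : ∀ x ∈ C, ∀ z ∈ x, z ∈ C
  inf : ZFSet.omega ∈ C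
  pr : ∀ x ∈ C, ∀ y ∈ C, ({x, y} : ZFSet) ∈ C
  pow : ∀ x ∈ C, x.powerset ∈ C
  sUn : ∀ x ∈ C, (ZFSet.sUnion x) ∈ C
  img : ∀ x ∈ C, ∀ f : ZFSet.{u} → ZFSet.{u}, (∀ z ∈ x, f z ∈ C) →
    ∃ b ∈ C, ∀ t, t ∈ b ↔ ∃ z ∈ x, f z = t

/-- The `{∈}`-structure of a class. -/
instance zStruct (C : Set ZFSet.{u}) : Lset.Structure C where
  funMap f _ := Empty.elim f
  RelMap {n} R x := match n, R, x with
    | _, SetRel.mem, x => (x 0).1 ∈ (x 1).1

theorem E_iff {C : Set ZFSet.{u}} (x y : C) : E x y ↔ x.1 ∈ y.1 := Iff.rfl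

namespace UClass

variable {C : Set ZFSet.{u}}

theorem sub (hC : UClass C) {x y : ZFSet} (hx : x ∈ C) (h : y ⊆ x) : y ∈ C :=
  hC.trans _ (hC.pow x hx) y (ZFSet.mem_powerset.2 h)

theorem empty_mem (hC : UClass C) : (∅ : ZFSet) ∈ C :=
  hC.trans _ hC.inf _ ZFSet.omega_zero

theorem pair_mem (hC : UClass C) {x y : ZFSet} (hx : x ∈ C) (hy : y ∈ C) :
    ZFSet.pair x y ∈ C := by
  unfold ZFSet.pair
  refine hC.pr _ ?_ _ (hC.pr _ hx _ hy)
  have := hC.pr _ hx _ hx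
  rwa [ZFSet.pair_eq_singleton] at this

theorem model_zfc (hC : UClass C) : (C : Type _) ⊨ ZFC := by
  refine ⟨?_⟩
  rintro σ ((h | h) | h)
  · simp only [Set.mem_insert_iff, Set.mem_singleton_iff] at h
    rcases h with rfl | rfl | rfl | rfl | rfl | rfl | rfl
    · -- extensionality
      rw [realize_axExt]
      intro x y h
      apply Subtype.ext
      apply ZFSet.ext
      intro z
      constructor
      · intro hz
        exact (h ⟨z, hC.trans _ x.2 z hz⟩).1 hz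
      · intro hz
        exact (h ⟨z, hC.trans _ y.2 z hz⟩).2 hz
    · -- foundation
      rw [realize_axFound]
      rintro x ⟨y, hy⟩
      have hne : x.1 ≠ ∅ := by
        intro h
        rw [E_iff, h] at hy
        exact ZFSet.notMem_empty _ hy
      obtain ⟨z, hz, hz'⟩ := ZFSet.regularity x.1 hne
      refine ⟨⟨z, hC.trans _ x.2 z hz⟩, hz, ?_⟩
      rintro ⟨t, ht, ht'⟩
      have : t.1 ∈ x.1 ∩ z := ZFSet.mem_inter.2 ⟨ht, ht'⟩
      rw [hz'] at this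
      exact ZFSet.notMem_empty _ this
    · -- pairing
      rw [realize_axPair]
      intro x y
      refine ⟨⟨{x.1, y.1}, hC.pr _ x.2 _ y.2⟩, fun t => ?_⟩
      rw [E_iff, ZFSet.mem_pair, Subtype.ext_iff, Subtype.ext_iff]
    · -- union
      rw [realize_axUnion]
      intro x
      refine ⟨⟨ZFSet.sUnion x.1, hC.sUn _ x.2⟩, fun z => ?_⟩
      rw [E_iff, ZFSet.mem_sUnion]
      constructor
      · rintro ⟨y, hy, hz⟩
        exact ⟨⟨y, hC.trans _ x.2 y hy⟩, hy, hz⟩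
      · rintro ⟨y, hy, hz⟩
        exact ⟨y, hy, hz⟩
    · -- power set
      rw [realize_axPower]
      intro x
      refine ⟨⟨x.1.powerset, hC.pow _ x.2⟩, fun z => ?_⟩
      rw [E_iff, ZFSet.mem_powerset]
      constructor
      · intro h t ht
        exact h ht
      · intro h t ht
        exact h ⟨t, hC.trans _ z.2 t ht⟩ ht
    · -- infinity
      rw [realize_axInf]
      refine ⟨⟨ZFSet.omega, hC.inf⟩, ⟨⟨∅, hC.empty_mem⟩, ZFSet.omega_zero, fun z hz =>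
        ZFSet.notMem_empty _ hz⟩, ?_⟩
      intro y hy
      have h1 : (insert y.1 y.1 : ZFSet) ∈ ZFSet.omega := ZFSet.omega_succ hy
      refine ⟨⟨insert y.1 y.1, hC.trans _ hC.inf _ h1⟩, h1, fun t => ?_⟩
      rw [E_iff, ZFSet.mem_insert_iff, Subtype.ext_iff, or_comm]
      rfl
    · -- choice
      rw [realize_axChoice]
      rintro x ⟨h1, h2⟩
      classical
      let f : ZFSet → ZFSet := fun y => if h : ∃ z, z ∈ y then h.choose else ∅
      have hf : ∀ y, (∃ z, z ∈ y) → f y ∈ y := by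
        intro y hy
        simp only [f, dif_pos hy]
        exact hy.choose_spec
      have hne : ∀ y ∈ x.1, ∃ z, z ∈ y := by
        intro y hy
        obtain ⟨z, hz⟩ := h1 ⟨y, hC.trans _ x.2 y hy⟩ hy
        exact ⟨z.1, hz⟩
      obtain ⟨b, hb, hb'⟩ := hC.img x.1 x.2 f (by
        intro y hy
        exact hC.trans y (hC.trans _ x.2 y hy) _ (hf y (hne y hy)))
      refine ⟨⟨b, hb⟩, fun y hy => ?_⟩
      have hfy : f y.1 ∈ y.1 := hf _ (hne _ hy)
      refine ⟨⟨f y.1, hC.trans _ y.2 _ hfy⟩, ⟨hfy, (hb' _).2 ⟨y.1, hy, rfl⟩⟩, ?_⟩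
      rintro z' ⟨hz1, hz2⟩
      obtain ⟨y', hy', hfz⟩ := (hb' _).1 hz2
      have hy'C : y' ∈ C := hC.trans _ x.2 y' hy'
      have hfy' : f y' ∈ y' := hf _ (hne _ hy')
      have hfz' : f y' = z'.1 := hfz
      have hzy' : z'.1 ∈ y' := by rw [← hfz']; exact hfy'
      have h3 : y = ⟨y', hy'C⟩ := h2 y ⟨y', hy'C⟩ ⟨⟨hy, hy'⟩, z', hz1, hzy'⟩
      have h4 : y.1 = y' := congrArg Subtype.val h3
      apply Subtype.ext
      change z'.1 = f y.1
      rw [← hfz', h4]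
  · -- separation
    obtain ⟨n, φ, rfl⟩ := h
    rw [realize_axSep]
    intro p x
    refine ⟨⟨ZFSet.sep (fun z => ∃ h : z ∈ C, φ.Realize (Fin.cons (⟨z, h⟩ : C) p :
      Fin (n + 1) → C)) x.1, hC.sub x.2 ZFSet.sep_subset⟩, fun z => ?_⟩
    rw [E_iff, ZFSet.mem_sep]
    constructor
    · rintro ⟨h1, h2, h3⟩
      exact ⟨h1, h3⟩
    · rintro ⟨h1, h2⟩
      exact ⟨h1, z.2, h2⟩
  · -- replacement
    obtain ⟨n, φ, rfl⟩ := h
    rw [realize_axRepl]
    intro p a ha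
    classical
    let P : ZFSet → C → Prop := fun z y => ∃ h : z ∈ C,
      φ.Realize (Fin.cons (⟨z, h⟩ : C) (Fin.cons y p : Fin (n + 1) → C) : Fin (n + 2) → C)
    let f : ZFSet → ZFSet := fun z => if h : ∃ y : C, P z y then h.choose.1 else ∅
    have hf : ∀ z, ∀ h : ∃ y : C, P z y, ∃ y : C, f z = y.1 ∧ P z y := by
      intro z h
      refine ⟨h.choose, ?_, h.choose_spec⟩
      simp only [f, dif_pos h]
    have hex : ∀ z ∈ a.1, ∃ y : C, P z y := by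
      intro z hz
      obtain ⟨y, hy, -⟩ := ha ⟨z, hC.trans _ a.2 z hz⟩ hz
      exact ⟨y, _, hy⟩
    obtain ⟨b, hb, hb'⟩ := hC.img a.1 a.2 f (by
      intro z hz
      obtain ⟨y, hy, -⟩ := hf z (hex z hz)
      rw [hy]
      exact y.2)
    refine ⟨⟨b, hb⟩, fun y => ?_⟩
    rw [E_iff, hb']
    constructor
    · rintro ⟨z, hz, hzy⟩
      obtain ⟨y', hy', hP, hP'⟩ := hf z (hex z hz)
      refine ⟨⟨z, hP⟩, hz, ?_⟩
      have : y' = y := Subtype.ext (hy'.symm.trans hzy)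
      rw [← this]
      exact hP'
    · rintro ⟨z, hz, hφ⟩
      refine ⟨z.1, hz, ?_⟩
      obtain ⟨y', hy', hP, hP'⟩ := hf z.1 (hex z.1 hz)
      obtain ⟨y₀, -, hu⟩ := ha z hz
      rw [hy', hu y' hP', hu y hφ]

end UClass

/-! ### The formula expressing being a universe -/

/-- The formula: the Kuratowski pair of `z` and `t` belongs to `f`, in variables `z, t, f`. -/
def pairF : Lset.Formula (Fin 3) :=
  ∃' ((memF (&0) (Term.var (Sum.inl 2))) ⊓
    ∀' ((memF (&1) (&0)).iff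
      ((∀' ((memF (&2) (&1)).iff ((&2) =' (Term.var (Sum.inl 0))))) ⊔
       (∀' ((memF (&2) (&1)).iff
        (((&2) =' (Term.var (Sum.inl 0))) ⊔ ((&2) =' (Term.var (Sum.inl 1)))))))))

/-- The pair of `z` and `t` belongs to `f`. -/
def PairIn {M : Type u} [Lset.Structure M] (z t f : M) : Prop :=
  ∃ p : M, E p f ∧ ∀ q : M, E q p ↔
    ((∀ r : M, E r q ↔ r = z) ∨ (∀ r : M, E r q ↔ (r = z ∨ r = t)))

theorem realize_pairF {M : Type u} [Lset.Structure M] (v : Fin 3 → M) :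
    pairF.Realize v ↔ PairIn (v 0) (v 1) (v 2) := by
  simp [pairF, PairIn, Formula.Realize, realize_memF, Fin.snoc]

/-- `pairF` for bound variables. -/
def pairB {m : ℕ} (i j k : Fin m) : Lset.BoundedFormula (Fin 1) m :=
  BoundedFormula.relabel (![Sum.inr i, Sum.inr j, Sum.inr k] : Fin 3 → Fin 1 ⊕ Fin m) pairF

theorem realize_pairB {M : Type u} [Lset.Structure M] {m : ℕ} (i j k : Fin m) (v : Fin 1 → M)
    (xs : Fin m → M) : (pairB i j k).Realize v xs ↔ PairIn (xs i) (xs j) (xs k) := by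
  unfold pairB
  rw [BoundedFormula.realize_relabel, Formula.boundedFormula_realize_eq_realize, realize_pairF]
  simp

/-- The formula saying that `v` is a universe. -/
def univF : Lset.Formula (Fin 1) :=
  (∀' ((memF (&0) (Term.var (Sum.inl 0))) ⟹
      ∀' ((memF (&1) (&0)) ⟹ (memF (&1) (Term.var (Sum.inl 0)))))) ⊓
  ((∃' ((memF (&0) (Term.var (Sum.inl 0))) ⊓
      ((∃' (memF (&1) (&0) ⊓ ∀' ∼(memF (&2) (&1)))) ⊓
      ∀' ((memF (&1) (&0)) ⟹
        ∃' (memF (&2) (&0) ⊓ ∀' ((memF (&3) (&2)).iff ((memF (&3) (&1)) ⊔ ((&3) =' (&1))))))))) ⊓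
  ((∀' ∀' (((memF (&0) (Term.var (Sum.inl 0))) ⊓ (memF (&1) (Term.var (Sum.inl 0)))) ⟹
      ∃' ((memF (&2) (Term.var (Sum.inl 0))) ⊓
        ∀' ((memF (&3) (&2)).iff (((&3) =' (&0)) ⊔ ((&3) =' (&1))))))) ⊓
  ((∀' ((memF (&0) (Term.var (Sum.inl 0))) ⟹
      ∃' ((memF (&1) (Term.var (Sum.inl 0))) ⊓
        ∀' ((memF (&2) (&1)).iff (∀' ((memF (&3) (&2)) ⟹ (memF (&3) (&0)))))))) ⊓
  ((∀' ((memF (&0) (Term.var (Sum.inl 0))) ⟹
      ∃' ((memF (&1) (Term.var (Sum.inl 0))) ⊓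
        ∀' ((memF (&2) (&1)).iff (∃' (memF (&3) (&0) ⊓ memF (&2) (&3))))))) ⊓
  (∀' ((memF (&0) (Term.var (Sum.inl 0))) ⟹
      ∀' ((∀' ((memF (&2) (&0)) ⟹
            ∃' (((memF (&3) (Term.var (Sum.inl 0))) ⊓ (pairB 2 3 1)) ⊓
              ∀' (((memF (&4) (Term.var (Sum.inl 0))) ⊓ (pairB 2 4 1)) ⟹ ((&4) =' (&3)))))) ⟹
          ∃' ((memF (&2) (Term.var (Sum.inl 0))) ⊓
            ∀' ((memF (&3) (&2)).iff
              (∃' ((memF (&4) (&0)) ⊓ ((memF (&3) (Term.var (Sum.inl 0))) ⊓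
                (pairB 4 3 1)))))))))))))

/-- The meaning of `univF`. -/
structure IsU {M : Type u} [Lset.Structure M] (v : M) : Prop where
  c1 : ∀ x : M, E x v → ∀ z : M, E z x → E z v
  c2 : ∃ w : M, E w v ∧ (∃ e : M, E e w ∧ ∀ z : M, ¬ E z e) ∧
    ∀ y : M, E y w → ∃ s : M, E s w ∧ ∀ t : M, E t s ↔ (E t y ∨ t = y)
  c3 : ∀ x y : M, E x v ∧ E y v → ∃ z : M, E z v ∧ ∀ t : M, E t z ↔ (t = x ∨ t = y)
  c4 : ∀ x : M, E x v → ∃ p : M, E p v ∧ ∀ z : M, E z p ↔ ∀ t : M, E t z → E t x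
  c5 : ∀ x : M, E x v → ∃ s : M, E s v ∧ ∀ z : M, E z s ↔ ∃ y : M, E y x ∧ E z y
  c6 : ∀ x : M, E x v → ∀ f : M,
    (∀ z : M, E z x → ∃ t : M, (E t v ∧ PairIn z t f) ∧
      ∀ t' : M, E t' v ∧ PairIn z t' f → t' = t) →
    ∃ b : M, E b v ∧ ∀ t : M, E t b ↔ ∃ z : M, E z x ∧ (E t v ∧ PairIn z t f)

theorem realize_univF {M : Type u} [Lset.Structure M] (v : Fin 1 → M) :
    univF.Realize v ↔ IsU (v 0) := by
  have h : univF.Realize v ↔
      ((∀ x : M, E x (v 0) → ∀ z : M, E z x → E z (v 0)) ∧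
      ((∃ w : M, E w (v 0) ∧ (∃ e : M, E e w ∧ ∀ z : M, ¬ E z e) ∧
        ∀ y : M, E y w → ∃ s : M, E s w ∧ ∀ t : M, E t s ↔ (E t y ∨ t = y)) ∧
      ((∀ x y : M, E x (v 0) ∧ E y (v 0) → ∃ z : M, E z (v 0) ∧
        ∀ t : M, E t z ↔ (t = x ∨ t = y)) ∧
      ((∀ x : M, E x (v 0) → ∃ p : M, E p (v 0) ∧ ∀ z : M, E z p ↔ ∀ t : M, E t z → E t x) ∧
      ((∀ x : M, E x (v 0) → ∃ s : M, E s (v 0) ∧ ∀ z : M, E z s ↔ ∃ y : M, E y x ∧ E z y) ∧
      (∀ x : M, E x (v 0) → ∀ f : M,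
    (∀ z : M, E z x → ∃ t : M, (E t (v 0) ∧ PairIn z t f) ∧
      ∀ t' : M, E t' (v 0) ∧ PairIn z t' f → t' = t) →
    ∃ b : M, E b (v 0) ∧ ∀ t : M, E t b ↔ ∃ z : M, E z x ∧ (E t (v 0) ∧ PairIn z t f))))))) := by
    unfold univF
    simp only [Formula.Realize, BoundedFormula.realize_inf, BoundedFormula.realize_all,
      BoundedFormula.realize_imp, realize_memF, BoundedFormula.realize_ex,
      BoundedFormula.realize_not, BoundedFormula.realize_iff, BoundedFormula.realize_sup,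
      BoundedFormula.realize_bdEqual, realize_pairB]
    simp [Fin.snoc]
  rw [h]
  exact ⟨fun ⟨a, b, c, d, e, f⟩ => ⟨a, b, c, d, e, f⟩,
    fun ⟨a, b, c, d, e, f⟩ => ⟨a, b, c, d, e, f⟩⟩

end Pool.Agent.Lib.MP_918dbb_lc
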